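import Mathlib

/-! Ramsey's theorem with the bound of Erdős and Szekeres, numerical form for 45. -/

set_option autoImplicit false

namespace Pool.Agent.Q51.CPR

open Finset

/-- **Ramsey's theorem**, with the bound of Erdős and Szekeres -/
theorem ramsey {α : Type*} (G : α → α → Prop) (hG : ∀ x y, G x y → G y x) (s t : ℕ) :
    ∀ V : Finset α, (s + t).choose s ≤ V.card →
      (∃ A ⊆ V, A.card = s + 1 ∧ ∀ x ∈ A, ∀ y ∈ A, x ≠ y → ¬ G x y) ∨
      (∃ A ⊆ V, A.card = t + 1 ∧ ∀ x ∈ A, ∀ y ∈ A, x ≠ y → G x y) := by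
  classical
  induction hn : s + t generalizing s t with
  | zero =>
    intro V hV
    have hs : s = 0 := by omega
    have ht : t = 0 := by omega
    subst hs; subst ht
    simp only [Nat.choose_self] at hV
    obtain ⟨v, hv⟩ := Finset.card_pos.1 hV
    exact Or.inl ⟨{v}, by simpa using hv, by simp, by simp⟩
  | succ n ih =>
    intro V hV
    have hVpos : 0 < V.card := lt_of_lt_of_le (Nat.choose_pos (by omega)) hV
    obtain ⟨v, hv⟩ := Finset.card_pos.1 hVpos
    rcases Nat.eq_zero_or_pos s with hs | hs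
    · subst hs
      exact Or.inl ⟨{v}, by simpa using hv, by simp, by simp⟩
    rcases Nat.eq_zero_or_pos t with ht | ht
    · subst ht
      exact Or.inr ⟨{v}, by simpa using hv, by simp, by simp⟩
    obtain ⟨s, rfl⟩ : ∃ s', s = s' + 1 := ⟨s - 1, by omega⟩
    obtain ⟨t, rfl⟩ : ∃ t', t = t' + 1 := ⟨t - 1, by omega⟩
    set N0 := (V.erase v).filter (fun y => ¬ G v y) with hN0
    set N1 := (V.erase v).filter (fun y => G v y) with hN1
    have hcard : N1.card + N0.card + 1 = V.card := by
      rw [hN0, hN1, Finset.card_filter_add_card_filter_not, Finset.card_erase_of_mem hv]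
      omega
    have hch : (n + 1).choose (s + 1) = n.choose s + n.choose (s + 1) := Nat.choose_succ_succ _ _
    have hor : n.choose s ≤ N0.card ∨ n.choose (s + 1) ≤ N1.card := by
      by_contra hcon
      push Not at hcon
      omega
    rcases hor with h | h
    · rcases ih s (t + 1) (by omega) N0 h with ⟨A, hA, hc, hAA⟩ | ⟨A, hA, hc, hAA⟩
      · left
        have hvA : v ∉ A := fun hh => by
          have := hA hh
          rw [hN0, Finset.mem_filter, Finset.mem_erase] at this
          exact this.1.1 rfl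
        refine ⟨insert v A, ?_, by rw [Finset.card_insert_of_notMem hvA, hc], ?_⟩
        · intro x hx
          rcases Finset.mem_insert.1 hx with rfl | hx
          · exact hv
          · exact (Finset.mem_of_mem_erase (Finset.mem_filter.1 (hA hx)).1)
        · intro x hx y hy hxy
          rcases Finset.mem_insert.1 hx with hx1 | hx <;> rcases Finset.mem_insert.1 hy with hy1 | hy
          · exact absurd (hx1.trans hy1.symm) hxy
          · rw [hx1]
            exact (Finset.mem_filter.1 (hA hy)).2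
          · rw [hy1]
            exact fun hh => (Finset.mem_filter.1 (hA hx)).2 (hG _ _ hh)
          · exact hAA x hx y hy hxy
      · right
        exact ⟨A, fun x hx => Finset.mem_of_mem_erase (Finset.mem_filter.1 (hA hx)).1, hc, hAA⟩
    · rcases ih (s + 1) t (by omega) N1 h with ⟨A, hA, hc, hAA⟩ | ⟨A, hA, hc, hAA⟩
      · left
        exact ⟨A, fun x hx => Finset.mem_of_mem_erase (Finset.mem_filter.1 (hA hx)).1, hc, hAA⟩
      · right
        have hvA : v ∉ A := fun hh => by
          have := hA hh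
          rw [hN1, Finset.mem_filter, Finset.mem_erase] at this
          exact this.1.1 rfl
        refine ⟨insert v A, ?_, by rw [Finset.card_insert_of_notMem hvA, hc], ?_⟩
        · intro x hx
          rcases Finset.mem_insert.1 hx with rfl | hx
          · exact hv
          · exact (Finset.mem_of_mem_erase (Finset.mem_filter.1 (hA hx)).1)
        · intro x hx y hy hxy
          rcases Finset.mem_insert.1 hx with hx1 | hx <;> rcases Finset.mem_insert.1 hy with hy1 | hy
          · exact absurd (hx1.trans hy1.symm) hxy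
          · rw [hx1]
            exact (Finset.mem_filter.1 (hA hy)).2
          · rw [hy1]
            exact hG _ _ (Finset.mem_filter.1 (hA hx)).2
          · exact hAA x hx y hy hxy

theorem choose_lt (n : ℕ) : n < (45 + n).choose 44 := by
  induction n with
  | zero => decide
  | succ n ih =>
    have h := Nat.choose_succ_succ' (45 + n) 43
    have e : 45 + n + 1 = 45 + (n + 1) := by omega
    have e2 : 43 + 1 = 44 := rfl
    rw [e, e2] at h
    have : 1 ≤ (45 + n).choose 43 := Nat.choose_pos (by omega)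
    omega

/-- no 45 elements without an edge: a clique with `17 |V| ^ (1/44) - 44` elements -/
theorem clique45 {α : Type*} (G : α → α → Prop) (hG : ∀ x y, G x y → G y x) (V : Finset α)
    (h : ∀ S ⊆ V, S.card = 45 → ∃ x ∈ S, ∃ y ∈ S, x ≠ y ∧ G x y) :
    ∃ W ⊆ V, 17 * (V.card : ℝ) ^ (1 / 44 : ℝ) - 44 ≤ (W.card : ℝ) ∧
      ∀ x ∈ W, ∀ y ∈ W, x ≠ y → G x y := by
  classical
  rcases Nat.eq_zero_or_pos V.card with h0 | hpos
  · refine ⟨∅, Finset.empty_subset _, ?_, by simp⟩
    rw [h0]
    push_cast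
    rw [Real.zero_rpow (by norm_num)]
    simp
  obtain ⟨t, ht1, ht2⟩ : ∃ t : ℕ, (44 + t).choose 44 ≤ V.card ∧ V.card < (45 + t).choose 44 := by
    have hex : ∃ t : ℕ, V.card < (45 + t).choose 44 := ⟨V.card, choose_lt _⟩
    refine ⟨Nat.find hex, ?_, Nat.find_spec hex⟩
    rcases Nat.eq_zero_or_pos (Nat.find hex) with h | h
    · rw [h]
      simpa using hpos
    · have h2 := Nat.find_min hex (m := Nat.find hex - 1) (by omega)
      rw [show 45 + (Nat.find hex - 1) = 44 + Nat.find hex by omega] at h2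
      exact not_lt.1 h2
  rcases ramsey G hG 44 t V ht1 with ⟨S, hS, hSc, hSS⟩ | ⟨B, hB, hBc, hBB⟩
  · exfalso
    obtain ⟨x, hx, y, hy, hxy, hg⟩ := h S hS hSc
    exact hSS x hx y hy hxy hg
  · refine ⟨B, hB, ?_, hBB⟩
    rw [hBc]
    have h1 : ((45 + t).choose 44 : ℝ) ≤ ((45 + t : ℕ) : ℝ) ^ 44 / (Nat.factorial 44 : ℝ) :=
      Nat.choose_le_pow_div 44 (45 + t)
    have h2 : (V.card : ℝ) ≤ ((45 + t : ℕ) : ℝ) ^ 44 / (Nat.factorial 44 : ℝ) :=
      le_trans (by exact_mod_cast ht2.le) h1
    have hf : (0 : ℝ) < (Nat.factorial 44 : ℝ) := by exact_mod_cast Nat.factorial_pos 44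
    rw [le_div_iff₀ hf] at h2
    have hnum : (17 : ℝ) ^ 44 ≤ (Nat.factorial 44 : ℝ) := by norm_num [Nat.factorial]
    have h3 : (17 : ℝ) ^ 44 * (V.card : ℝ) ≤ ((45 + t : ℕ) : ℝ) ^ 44 := by
      calc (17 : ℝ) ^ 44 * (V.card : ℝ) ≤ (Nat.factorial 44 : ℝ) * V.card := by gcongr
        _ = V.card * (Nat.factorial 44 : ℝ) := by ring
        _ ≤ _ := h2
    have h4 : 17 * (V.card : ℝ) ^ (1 / 44 : ℝ) ≤ ((45 + t : ℕ) : ℝ) := by
      have h5 : (17 * (V.card : ℝ) ^ (1 / 44 : ℝ)) ^ 44 ≤ ((45 + t : ℕ) : ℝ) ^ 44 := by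
        rw [mul_pow, ← Real.rpow_natCast ((V.card : ℝ) ^ (1 / 44 : ℝ)) 44,
          ← Real.rpow_mul (by positivity)]
        norm_num
        norm_num at h3
        exact h3
      exact le_of_pow_le_pow_left₀ (by norm_num) (by positivity) h5
    push_cast at h4 ⊢
    linarith

end Pool.Agent.Q51.CPR
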