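import Mathlib
import Pool.Agent.Y826.ZG.Final
import Pool.Agent.Q51.CP.Ramsey

/-! Cliques of linear forms. -/

set_option autoImplicit false

namespace Pool.Agent.Q51.CPR

open Finset Filter

/-- both forms have prime values -/
def SS (f g : ℕ × ℕ) (x : ℝ) : Set ℕ :=
  {n : ℕ | (n : ℝ) ≤ x ∧ (f.1 * n + f.2).Prime ∧ (g.1 * n + g.2).Prime}

theorem fin_x (P : ℕ → Prop) (x : ℝ) : {n : ℕ | (n : ℝ) ≤ x ∧ P n}.Finite := by
  refine (Set.finite_Iic ⌊x⌋₊).subset ?_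
  intro n hn
  exact Nat.le_floor hn.1

/-- a pair at every scale -/
theorem pair_scale (S : Finset (ℕ × ℕ)) (hS : S.card = 45) (ha : ∀ f ∈ S, 0 < f.1)
    (hne : ∀ f ∈ S, ∀ g ∈ S, f ≠ g → f.1 * g.2 ≠ g.1 * f.2)
    (hloc : ∀ p : ℕ, p.Prime → ∃ n : ℕ, ∀ f ∈ S, ¬ p ∣ f.1 * n + f.2) (ε : ℝ) (hε : 0 < ε) :
    ∀ᶠ x : ℝ in atTop, ∃ f ∈ S, ∃ g ∈ S, f ≠ g ∧ x ^ (1 - ε) ≤ ((SS f g x).ncard : ℝ) := by
  classical
  let e := S.equivFinOfCardEq hS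
  have h1 := Pool.Agent.Y826.ZG.dhl45L (fun i => (e.symm i).1.1) (fun i => (e.symm i).1.2)
    ⟨fun i => ha _ (e.symm i).2, fun i j hij => hne _ (e.symm i).2 _ (e.symm j).2
      (fun h => hij (e.symm.injective (Subtype.ext h))), fun p hp => by
        obtain ⟨n, hn⟩ := hloc p hp
        exact ⟨n, fun i => hn _ (e.symm i).2⟩⟩ (ε / 2) (by positivity)
  have h2 : ∀ᶠ x : ℝ in atTop, 2025 * x ^ (1 - ε) < x ^ (1 - ε / 2) := by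
    have h3 : Tendsto (fun x : ℝ => x ^ (ε / 2)) atTop atTop := tendsto_rpow_atTop (by positivity)
    filter_upwards [h3.eventually_gt_atTop 2025, eventually_gt_atTop (0 : ℝ)] with x hx hx0
    have : x ^ (1 - ε / 2) = x ^ (ε / 2) * x ^ (1 - ε) := by
      rw [← Real.rpow_add hx0]
      congr 1
      ring
    rw [this]
    exact mul_lt_mul_of_pos_right hx (Real.rpow_pos_of_pos hx0 _)
  filter_upwards [h1, h2, eventually_gt_atTop (0 : ℝ)] with x hx1 hx2 hx0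
  by_contra hcon
  push Not at hcon
  have hsub : ((Pool.Agent.H95R2.BG.LF.goodL (fun i => (e.symm i).1.1) (fun i => (e.symm i).1.2) x :
      Finset ℕ) : Set ℕ) ⊆ ⋃ fg ∈ S.offDiag, SS fg.1 fg.2 x := by
    intro n hn
    rw [Finset.mem_coe] at hn
    unfold Pool.Agent.H95R2.BG.LF.goodL at hn
    rw [Finset.mem_filter, Finset.mem_Icc] at hn
    obtain ⟨⟨_, hn2⟩, i, j, hij, hi, hj⟩ := hn
    rw [Set.mem_iUnion₂]
    refine ⟨((e.symm i).1, (e.symm j).1), ?_, (Nat.le_floor_iff hx0.le).1 hn2, hi, hj⟩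
    rw [Finset.mem_offDiag]
    exact ⟨(e.symm i).2, (e.symm j).2, fun h => hij (e.symm.injective (Subtype.ext h))⟩
  have hfinU : (⋃ fg ∈ S.offDiag, SS fg.1 fg.2 x).Finite :=
    Set.Finite.biUnion (Finset.finite_toSet _) (fun fg _ => fin_x _ x)
  have h4 := (Set.ncard_le_ncard hsub hfinU).trans (Finset.set_ncard_biUnion_le S.offDiag _)
  rw [Set.ncard_coe_finset] at h4
  have h5 : ∀ fg ∈ S.offDiag, ((SS fg.1 fg.2 x).ncard : ℝ) ≤ x ^ (1 - ε) := by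
    intro fg hfg
    rw [Finset.mem_offDiag] at hfg
    exact (hcon fg.1 hfg.1 fg.2 hfg.2.1 hfg.2.2).le
  have h6 : (S.offDiag.card : ℝ) ≤ 2025 := by
    rw [Finset.offDiag_card, hS]
    norm_num
  have h7 : x ^ (1 - ε / 2) ≤ 2025 * x ^ (1 - ε) := by
    calc x ^ (1 - ε / 2) ≤ _ := hx1
      _ ≤ ((∑ fg ∈ S.offDiag, (SS fg.1 fg.2 x).ncard : ℕ) : ℝ) := by exact_mod_cast h4
      _ = ∑ fg ∈ S.offDiag, ((SS fg.1 fg.2 x).ncard : ℝ) := Nat.cast_sum _ _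
      _ ≤ ∑ fg ∈ S.offDiag, x ^ (1 - ε) := Finset.sum_le_sum h5
      _ = S.offDiag.card * x ^ (1 - ε) := by
          rw [Finset.sum_const, nsmul_eq_mul]
      _ ≤ _ := mul_le_mul_of_nonneg_right h6 (by positivity)
  linarith

/-- **Cliques at every scale, and a fixed clique for arbitrarily large scales.** -/
theorem clique_forms (V : Finset (ℕ × ℕ)) (ha : ∀ f ∈ V, 0 < f.1)
    (hne : ∀ f ∈ V, ∀ g ∈ V, f ≠ g → f.1 * g.2 ≠ g.1 * f.2)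
    (hloc : ∀ S ⊆ V, S.card = 45 → ∀ p : ℕ, p.Prime → ∃ n : ℕ, ∀ f ∈ S, ¬ p ∣ f.1 * n + f.2) :
    (∀ ε : ℝ, 0 < ε → ∀ᶠ x : ℝ in atTop, ∃ W ⊆ V,
      17 * (V.card : ℝ) ^ (1 / 44 : ℝ) - 44 ≤ (W.card : ℝ) ∧
      ∀ f ∈ W, ∀ g ∈ W, f ≠ g → x ^ (1 - ε) ≤ ((SS f g x).ncard : ℝ)) ∧
    ∃ W ⊆ V, 17 * (V.card : ℝ) ^ (1 / 44 : ℝ) - 44 ≤ (W.card : ℝ) ∧
      ∀ ε : ℝ, 0 < ε → ∃ᶠ x : ℝ in atTop, ∀ f ∈ W, ∀ g ∈ W, f ≠ g →
        x ^ (1 - ε) ≤ ((SS f g x).ncard : ℝ) := by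
  classical
  have h1 : ∀ ε : ℝ, 0 < ε → ∀ᶠ x : ℝ in atTop, ∃ W ⊆ V,
      17 * (V.card : ℝ) ^ (1 / 44 : ℝ) - 44 ≤ (W.card : ℝ) ∧
      ∀ f ∈ W, ∀ g ∈ W, f ≠ g → x ^ (1 - ε) ≤ ((SS f g x).ncard : ℝ) := by
    intro ε hε
    have h2 : ∀ᶠ x : ℝ in atTop, ∀ S ∈ V.powersetCard 45, ∃ f ∈ S, ∃ g ∈ S, f ≠ g ∧
        x ^ (1 - ε) ≤ ((SS f g x).ncard : ℝ) := by
      rw [Filter.eventually_all_finset]
      intro S hS
      rw [Finset.mem_powersetCard] at hS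
      exact pair_scale S hS.2 (fun f hf => ha f (hS.1 hf))
        (fun f hf g hg => hne f (hS.1 hf) g (hS.1 hg)) (hloc S hS.1 hS.2) ε hε
    filter_upwards [h2] with x hx
    exact clique45 (fun f g : ℕ × ℕ => x ^ (1 - ε) ≤ ((SS f g x).ncard : ℝ)) (by
      intro f g hfg
      have : SS f g x = SS g f x := by
        ext n
        exact ⟨fun h => ⟨h.1, h.2.2, h.2.1⟩, fun h => ⟨h.1, h.2.2, h.2.1⟩⟩
      rwa [← this]) V
      (fun S hS hSc => hx S (Finset.mem_powersetCard.2 ⟨hS, hSc⟩))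
  refine ⟨h1, ?_⟩
  by_contra hcon
  push Not at hcon
  -- for every large `W` an exponent
  have h2 : ∀ W ∈ V.powerset, ∃ ε : ℝ, 0 < ε ∧ (17 * (V.card : ℝ) ^ (1 / 44 : ℝ) - 44 ≤ (W.card : ℝ) →
      ∀ᶠ x : ℝ in atTop, ∃ f ∈ W, ∃ g ∈ W, f ≠ g ∧ ((SS f g x).ncard : ℝ) < x ^ (1 - ε)) := by
    intro W hW
    by_cases hc : 17 * (V.card : ℝ) ^ (1 / 44 : ℝ) - 44 ≤ (W.card : ℝ)
    · obtain ⟨ε, hε, h3⟩ := hcon W (Finset.mem_powerset.1 hW) hc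
      exact ⟨ε, hε, fun _ => h3⟩
    · exact ⟨1, one_pos, fun h => absurd h hc⟩
  choose! ε hε h3 using h2
  obtain ⟨W₀, hW₀, hmin⟩ := (V.powerset).exists_min_image ε ⟨∅, Finset.empty_mem_powerset V⟩
  have h4 : ∀ᶠ x : ℝ in atTop, ∀ W ∈ V.powerset, 17 * (V.card : ℝ) ^ (1 / 44 : ℝ) - 44 ≤ (W.card : ℝ) →
      ∃ f ∈ W, ∃ g ∈ W, f ≠ g ∧ ((SS f g x).ncard : ℝ) < x ^ (1 - ε W) := by
    rw [Filter.eventually_all_finset]
    intro W hW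
    by_cases hc : 17 * (V.card : ℝ) ^ (1 / 44 : ℝ) - 44 ≤ (W.card : ℝ)
    · filter_upwards [h3 W hW hc] with x hx _
      exact hx
    · exact Filter.Eventually.of_forall fun x h => absurd h hc
  obtain ⟨x, ⟨W, hW, hc, hall⟩, hx2, hx1⟩ :=
    ((h1 (ε W₀) (hε W₀ hW₀)).and (h4.and (eventually_ge_atTop (1 : ℝ)))).exists
  obtain ⟨f, hf, g, hg, hfg, hlt⟩ := hx2 W (Finset.mem_powerset.2 hW) hc
  have h5 := hall f hf g hg hfg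
  have h6 : x ^ (1 - ε W) ≤ x ^ (1 - ε W₀) :=
    Real.rpow_le_rpow_of_exponent_le hx1 (by linarith [hmin W (Finset.mem_powerset.2 hW)])
  linarith

end Pool.Agent.Q51.CPR
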