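import Mathlib

/-! Properties which hold often. -/

set_option autoImplicit false

namespace Pool.Agent.Q51.CP

open Finset Filter

/-- for every `ε > 0` there are arbitrarily large `x` for which at least `x^(1-ε)` integers
`0 ≤ n ≤ x` have the property -/
def Often (P : ℕ → Prop) : Prop :=
  ∀ ε : ℝ, 0 < ε → ∃ᶠ x : ℝ in atTop, x ^ (1 - ε) ≤ (Set.ncard {n : ℕ | (n : ℝ) ≤ x ∧ P n} : ℝ)

theorem fin_le (P : ℕ → Prop) (x : ℝ) : {n : ℕ | (n : ℝ) ≤ x ∧ P n}.Finite := by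
  refine (Set.finite_Iic ⌊x⌋₊).subset ?_
  intro n hn
  exact Nat.le_floor hn.1

theorem Often.mono {P Q : ℕ → Prop} (h : ∀ n, P n → Q n) (hP : Often P) : Often Q := by
  intro ε hε
  refine (hP ε hε).mono (fun x hx => hx.trans ?_)
  have h1 : {n : ℕ | (n : ℝ) ≤ x ∧ P n} ⊆ {n : ℕ | (n : ℝ) ≤ x ∧ Q n} :=
    fun n hn => ⟨hn.1, h n hn.2⟩
  exact_mod_cast Set.ncard_le_ncard h1 (fin_le Q x)

theorem often_shift {P Q : ℕ → Prop} (a : ℕ) (h : ∀ n, P n → Q (n + a)) (hP : Often P) :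
    Often Q := by
  intro ε hε
  have h1 : ∀ᶠ x : ℝ in atTop, (x + a) ^ (1 - ε) ≤ x ^ (1 - ε / 2) := by
    have h2 : Tendsto (fun x : ℝ => x ^ (ε / 2)) atTop atTop := tendsto_rpow_atTop (by positivity)
    filter_upwards [h2.eventually_ge_atTop 2, eventually_ge_atTop (1 : ℝ),
      eventually_ge_atTop (a : ℝ)] with x hx1 hx2 hx3
    have hx0 : (0 : ℝ) < x := by linarith
    have ha : (0 : ℝ) ≤ a := Nat.cast_nonneg a
    have h3 : (x + a) ^ (1 - ε) ≤ 2 * x ^ (1 - ε) := by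
      rcases le_or_gt 0 (1 - ε) with h0 | h0
      · calc (x + a) ^ (1 - ε) ≤ (2 * x) ^ (1 - ε) :=
            Real.rpow_le_rpow (by linarith) (by linarith) h0
          _ = 2 ^ (1 - ε) * x ^ (1 - ε) := Real.mul_rpow (by norm_num) hx0.le
          _ ≤ 2 * x ^ (1 - ε) := by
              gcongr
              calc (2 : ℝ) ^ (1 - ε) ≤ 2 ^ (1 : ℝ) :=
                    Real.rpow_le_rpow_of_exponent_le (by norm_num) (by linarith)
                _ = 2 := by norm_num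
      · have h4 : (x + a) ^ (1 - ε) ≤ x ^ (1 - ε) :=
          Real.rpow_le_rpow_of_nonpos hx0 (by linarith) h0.le
        have h5 : 0 ≤ x ^ (1 - ε) := by positivity
        linarith
    calc (x + a) ^ (1 - ε) ≤ 2 * x ^ (1 - ε) := h3
      _ ≤ x ^ (ε / 2) * x ^ (1 - ε) := by gcongr
      _ = x ^ (1 - ε / 2) := by
          rw [← Real.rpow_add hx0]
          congr 1
          ring
  have h2 := (hP (ε / 2) (by positivity)).and_eventually h1
  have h3 : ∃ᶠ x : ℝ in atTop, (x + a) ^ (1 - ε) ≤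
      (Set.ncard {n : ℕ | (n : ℝ) ≤ x + a ∧ Q n} : ℝ) := by
    refine h2.mono ?_
    rintro x ⟨hx1, hx2⟩
    refine hx2.trans (hx1.trans ?_)
    have h4 : (fun n => n + a) '' {n : ℕ | (n : ℝ) ≤ x ∧ P n} ⊆
        {n : ℕ | (n : ℝ) ≤ x + a ∧ Q n} := by
      rintro _ ⟨n, hn, rfl⟩
      exact ⟨by push_cast; linarith [hn.1], h n hn.2⟩
    have h5 := Set.ncard_le_ncard h4 (fin_le Q _)
    rw [Set.ncard_image_of_injective _ (add_left_injective a)] at h5
    exact_mod_cast h5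
  have h4 : Tendsto (fun x : ℝ => x + a) atTop atTop := tendsto_atTop_add_const_right _ _ tendsto_id
  exact h4.frequently h3

theorem often_union {ι : Type*} {P : ℕ → Prop} {Q : ι → ℕ → Prop} (F : Finset ι)
    (h : ∀ n, P n → ∃ i ∈ F, Q i n) (hP : Often P) : ∃ i ∈ F, Often (Q i) := by
  classical
  by_contra hcon
  have h1 : ∀ i ∈ F, ∃ ε : ℝ, 0 < ε ∧ ∀ᶠ x : ℝ in atTop,
      (Set.ncard {n : ℕ | (n : ℝ) ≤ x ∧ Q i n} : ℝ) < x ^ (1 - ε) := by
    intro i hi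
    by_contra hno
    apply hcon
    refine ⟨i, hi, fun ε hε => ?_⟩
    by_contra hno2
    apply hno
    refine ⟨ε, hε, ?_⟩
    rw [Filter.not_frequently] at hno2
    filter_upwards [hno2] with x hx
    exact not_le.1 hx
  choose! ε hε hev using h1
  -- the least exponent
  obtain ⟨δ, hδ, hδ2⟩ : ∃ δ : ℝ, 0 < δ ∧ ∀ i ∈ F, δ ≤ ε i := by
    rcases F.eq_empty_or_nonempty with hF | hF
    · exact ⟨1, one_pos, by simp [hF]⟩
    · obtain ⟨j, hj, hj2⟩ := F.exists_min_image ε hF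
      exact ⟨ε j, hε j hj, hj2⟩
  have h2 : ∀ᶠ x : ℝ in atTop, (Set.ncard {n : ℕ | (n : ℝ) ≤ x ∧ P n} : ℝ) ≤
      F.card * x ^ (1 - δ) := by
    have h3 : ∀ᶠ x : ℝ in atTop, ∀ i ∈ F,
        (Set.ncard {n : ℕ | (n : ℝ) ≤ x ∧ Q i n} : ℝ) < x ^ (1 - ε i) := by
      rw [Filter.eventually_all_finset]
      exact hev
    filter_upwards [h3, eventually_ge_atTop (1 : ℝ)] with x hx hx1
    have h4 : {n : ℕ | (n : ℝ) ≤ x ∧ P n} ⊆ ⋃ i ∈ F, {n : ℕ | (n : ℝ) ≤ x ∧ Q i n} := by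
      intro n hn
      obtain ⟨i, hi, hq⟩ := h n hn.2
      exact Set.mem_biUnion hi ⟨hn.1, hq⟩
    have h5 : Set.ncard {n : ℕ | (n : ℝ) ≤ x ∧ P n} ≤
        ∑ i ∈ F, Set.ncard {n : ℕ | (n : ℝ) ≤ x ∧ Q i n} := by
      refine (Set.ncard_le_ncard h4 ?_).trans (Finset.set_ncard_biUnion_le F _)
      exact Set.Finite.biUnion F.finite_toSet (fun i _ => fin_le (Q i) x)
    calc (Set.ncard {n : ℕ | (n : ℝ) ≤ x ∧ P n} : ℝ) ≤
          ∑ i ∈ F, (Set.ncard {n : ℕ | (n : ℝ) ≤ x ∧ Q i n} : ℝ) := by exact_mod_cast h5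
      _ ≤ ∑ i ∈ F, x ^ (1 - δ) := by
          refine Finset.sum_le_sum (fun i hi => (hx i hi).le.trans ?_)
          exact Real.rpow_le_rpow_of_exponent_le hx1 (by linarith [hδ2 i hi])
      _ = F.card * x ^ (1 - δ) := by rw [Finset.sum_const, nsmul_eq_mul]
  have h3 : ∀ᶠ x : ℝ in atTop, F.card * x ^ (1 - δ) < x ^ (1 - δ / 2) := by
    have h4 : Tendsto (fun x : ℝ => x ^ (δ / 2)) atTop atTop := tendsto_rpow_atTop (by positivity)
    filter_upwards [h4.eventually_gt_atTop (F.card : ℝ), eventually_ge_atTop (1 : ℝ)] with x hx hx1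
    have hx0 : (0 : ℝ) < x := by linarith
    calc (F.card : ℝ) * x ^ (1 - δ) < x ^ (δ / 2) * x ^ (1 - δ) := by
          have : 0 < x ^ (1 - δ) := Real.rpow_pos_of_pos hx0 _
          exact mul_lt_mul_of_pos_right hx this
      _ = x ^ (1 - δ / 2) := by
          rw [← Real.rpow_add hx0]
          congr 1
          ring
  obtain ⟨x, hx1, hx2, hx3⟩ := ((hP (δ / 2) (by positivity)).and_eventually (h2.and h3)).exists
  linarith

theorem Often.exists {P : ℕ → Prop} (hP : Often P) : ∃ n, P n := by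
  by_contra hno
  push Not at hno
  have h1 := (hP (1 / 2) (by norm_num)).and_eventually (eventually_gt_atTop (0 : ℝ))
  obtain ⟨x, hx1, hx2⟩ := h1.exists
  have h2 : {n : ℕ | (n : ℝ) ≤ x ∧ P n} = ∅ := by
    ext n
    simp [hno n]
  rw [h2, Set.ncard_empty] at hx1
  have := Real.rpow_pos_of_pos hx2 (1 - 1 / 2)
  push_cast at hx1
  linarith

end Pool.Agent.Q51.CP
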