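import Mathlib
import Pool.Agent.Y826.ZG.Final
import Pool.Agent.Y826.ZC.Exact
import Pool.Agent.Q51.CP.Often

/-! Ramsey's theorem (Erdős and Szekeres) and a finite sieve. -/

set_option autoImplicit false

namespace Pool.Agent.Q51.CP

open Finset Filter

/-- **Ramsey's theorem**, with the bound of Erdős and Szekeres -/
theorem ramsey {α : Type*} (G : α → α → Prop) (hG : ∀ x y, G x y → G y x) (s t : ℕ) :
    ∀ V : Finset α, (s + t).choose s ≤ V.card →
      (∃ A ⊆ V, A.card = s + 1 ∧ ∀ x ∈ A, ∀ y ∈ A, x ≠ y → ¬ G x y) ∨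
      (∃ A ⊆ V, A.card = t + 1 ∧ ∀ x ∈ A, ∀ y ∈ A, x ≠ y → G x y) := by
  classical
  induction hn : s + t generalizing s t with
  | zero =>
    intro V hV
    have hs : s = 0 := by omega
    have ht : t = 0 := by omega
    subst hs; subst ht
    simp only [Nat.choose_self] at hV
    obtain ⟨v, hv⟩ := Finset.card_pos.1 hV
    exact Or.inl ⟨{v}, by simpa using hv, by simp, by simp⟩
  | succ n ih =>
    intro V hV
    have hVpos : 0 < V.card := lt_of_lt_of_le (Nat.choose_pos (by omega)) hV
    obtain ⟨v, hv⟩ := Finset.card_pos.1 hVpos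
    rcases Nat.eq_zero_or_pos s with hs | hs
    · subst hs
      exact Or.inl ⟨{v}, by simpa using hv, by simp, by simp⟩
    rcases Nat.eq_zero_or_pos t with ht | ht
    · subst ht
      exact Or.inr ⟨{v}, by simpa using hv, by simp, by simp⟩
    obtain ⟨s, rfl⟩ : ∃ s', s = s' + 1 := ⟨s - 1, by omega⟩
    obtain ⟨t, rfl⟩ : ∃ t', t = t' + 1 := ⟨t - 1, by omega⟩
    set N0 := (V.erase v).filter (fun y => ¬ G v y) with hN0
    set N1 := (V.erase v).filter (fun y => G v y) with hN1
    have hcard : N1.card + N0.card + 1 = V.card := by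
      rw [hN0, hN1, Finset.card_filter_add_card_filter_not, Finset.card_erase_of_mem hv]
      omega
    have hch : (n + 1).choose (s + 1) = n.choose s + n.choose (s + 1) := Nat.choose_succ_succ _ _
    have hor : n.choose s ≤ N0.card ∨ n.choose (s + 1) ≤ N1.card := by
      by_contra hcon
      push Not at hcon
      omega
    rcases hor with h | h
    · -- many non-neighbours
      rcases ih s (t + 1) (by omega) N0 h with ⟨A, hA, hc, hAA⟩ | ⟨A, hA, hc, hAA⟩
      · left
        have hvA : v ∉ A := fun hh => by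
          have := hA hh
          rw [hN0, Finset.mem_filter, Finset.mem_erase] at this
          exact this.1.1 rfl
        refine ⟨insert v A, ?_, by rw [Finset.card_insert_of_notMem hvA, hc], ?_⟩
        · intro x hx
          rcases Finset.mem_insert.1 hx with rfl | hx
          · exact hv
          · exact (Finset.mem_of_mem_erase (Finset.mem_filter.1 (hA hx)).1)
        · intro x hx y hy hxy
          rcases Finset.mem_insert.1 hx with hx1 | hx <;> rcases Finset.mem_insert.1 hy with hy1 | hy
          · exact absurd (hx1.trans hy1.symm) hxy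
          · rw [hx1]
            exact (Finset.mem_filter.1 (hA hy)).2
          · rw [hy1]
            exact fun hh => (Finset.mem_filter.1 (hA hx)).2 (hG _ _ hh)
          · exact hAA x hx y hy hxy
      · right
        exact ⟨A, fun x hx => Finset.mem_of_mem_erase (Finset.mem_filter.1 (hA hx)).1, hc, hAA⟩
    · rcases ih (s + 1) t (by omega) N1 h with ⟨A, hA, hc, hAA⟩ | ⟨A, hA, hc, hAA⟩
      · left
        exact ⟨A, fun x hx => Finset.mem_of_mem_erase (Finset.mem_filter.1 (hA hx)).1, hc, hAA⟩
      · right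
        have hvA : v ∉ A := fun hh => by
          have := hA hh
          rw [hN1, Finset.mem_filter, Finset.mem_erase] at this
          exact this.1.1 rfl
        refine ⟨insert v A, ?_, by rw [Finset.card_insert_of_notMem hvA, hc], ?_⟩
        · intro x hx
          rcases Finset.mem_insert.1 hx with rfl | hx
          · exact hv
          · exact (Finset.mem_of_mem_erase (Finset.mem_filter.1 (hA hx)).1)
        · intro x hx y hy hxy
          rcases Finset.mem_insert.1 hx with hx1 | hx <;> rcases Finset.mem_insert.1 hy with hy1 | hy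
          · exact absurd (hx1.trans hy1.symm) hxy
          · rw [hx1]
            exact (Finset.mem_filter.1 (hA hy)).2
          · rw [hy1]
            exact hG _ _ (Finset.mem_filter.1 (hA hx)).2
          · exact hAA x hx y hy hxy

/-- the classes of a finite set modulo `q`: some class is large -/
theorem exists_class (A : Finset ℤ) (q : ℕ) (hq : 0 < q) :
    ∃ s : ℤ, (A.card : ℝ) / q ≤ ((A.filter (fun x => x ≡ s [ZMOD q])).card : ℝ) := by
  classical
  by_contra hcon
  push Not at hcon
  have h1 : (A.card : ℝ) ≤ ∑ s ∈ Finset.range q, ((A.filter (fun x => x ≡ (s : ℤ) [ZMOD q])).card : ℝ) := by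
    have h2 : A ⊆ (Finset.range q).biUnion (fun s : ℕ => A.filter (fun x => x ≡ (s : ℤ) [ZMOD q])) := by
      intro x hx
      rw [Finset.mem_biUnion]
      have h0 : 0 ≤ x % q := Int.emod_nonneg _ (by exact_mod_cast hq.ne')
      have h3 : x % q < q := Int.emod_lt_of_pos _ (by exact_mod_cast hq)
      refine ⟨(x % q).toNat, ?_, Finset.mem_filter.2 ⟨hx, ?_⟩⟩
      · rw [Finset.mem_range]; omega
      · rw [Int.toNat_of_nonneg h0]
        exact (Int.mod_modEq x q).symm
    have h4 := (Finset.card_le_card h2).trans Finset.card_biUnion_le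
    exact_mod_cast h4
  have h5 : ∑ s ∈ Finset.range q, ((A.filter (fun x => x ≡ (s : ℤ) [ZMOD q])).card : ℝ) <
      ∑ s ∈ Finset.range q, (A.card : ℝ) / q := by
    apply Finset.sum_lt_sum_of_nonempty
    · exact ⟨0, Finset.mem_range.2 hq⟩
    · intro s _
      exact hcon s
  rw [Finset.sum_const, Finset.card_range, nsmul_eq_mul, mul_div_cancel₀ _ (by positivity)] at h5
  linarith

/-- a finite sieve: remove the smallest class modulo each prime of a list -/
theorem sieve (l : List ℕ) (hl : ∀ p ∈ l, 0 < p) (A : Finset ℤ) :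
    ∃ A' ⊆ A, (∀ p ∈ l, ∃ r : ℤ, ∀ s ∈ A', ¬ (p : ℤ) ∣ r + s) ∧
      (A.card : ℝ) * (l.map (fun p : ℕ => 1 - 1 / (p : ℝ))).prod ≤ A'.card := by
  classical
  induction l with
  | nil => exact ⟨A, subset_rfl, by simp, by simp⟩
  | cons p l ih =>
    obtain ⟨A₁, hA₁, hl₁, hc₁⟩ := ih fun p' hp' => hl p' (List.mem_cons_of_mem _ hp')
    have hp : 0 < p := hl p (List.mem_cons_self)
    -- the smallest class
    obtain ⟨r, hr⟩ : ∃ r : ℤ, ((A₁.filter (fun x => x ≡ r [ZMOD p])).card : ℝ) ≤ A₁.card / p := by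
      by_contra hcon
      push Not at hcon
      have h1 : ∑ s ∈ Finset.range p, ((A₁.filter (fun x => x ≡ (s : ℤ) [ZMOD p])).card : ℝ) ≤ A₁.card := by
        have h2 : ((Finset.range p).biUnion (fun s : ℕ => A₁.filter (fun x => x ≡ (s : ℤ) [ZMOD p]))) ⊆ A₁ := by
          intro x hx
          rw [Finset.mem_biUnion] at hx
          obtain ⟨s, _, hs⟩ := hx
          exact (Finset.mem_filter.1 hs).1
        have h3 := Finset.card_le_card h2
        rw [Finset.card_biUnion] at h3
        · exact_mod_cast h3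
        · intro s hs t ht hst
          rw [Function.onFun, Finset.disjoint_left]
          intro x hx hx'
          have h4 : (s : ℤ) ≡ (t : ℤ) [ZMOD p] :=
            (Finset.mem_filter.1 hx).2.symm.trans (Finset.mem_filter.1 hx').2
          have h5 : s ≡ t [MOD p] := Int.natCast_modEq_iff.1 h4
          rw [Finset.coe_range, Set.mem_Iio] at hs ht
          exact hst (Nat.ModEq.eq_of_lt_of_lt h5 hs ht)
      have h5 : ∑ s ∈ Finset.range p, (A₁.card : ℝ) / p <
          ∑ s ∈ Finset.range p, ((A₁.filter (fun x => x ≡ (s : ℤ) [ZMOD p])).card : ℝ) := by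
        apply Finset.sum_lt_sum_of_nonempty
        · exact ⟨0, Finset.mem_range.2 hp⟩
        · intro s _
          exact hcon s
      rw [Finset.sum_const, Finset.card_range, nsmul_eq_mul, mul_div_cancel₀ _ (by positivity)] at h5
      linarith
    refine ⟨A₁.filter (fun x => ¬ x ≡ r [ZMOD p]), (Finset.filter_subset _ _).trans hA₁, ?_, ?_⟩
    · intro p' hp'
      rcases List.mem_cons.1 hp' with rfl | hp'
      · refine ⟨-r, fun s hs hd => (Finset.mem_filter.1 hs).2 ?_⟩
        have : (p' : ℤ) ∣ s - r := by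
          have : s - r = -r + s := by ring
          rwa [this]
        exact (Int.modEq_iff_dvd.2 this).symm
      · obtain ⟨r', hr'⟩ := hl₁ p' hp'
        exact ⟨r', fun s hs => hr' s (Finset.mem_filter.1 hs).1⟩
    · have h1 := Finset.card_filter_add_card_filter_not (s := A₁) (fun x => x ≡ r [ZMOD p])
      have h2 : ((A₁.filter (fun x => x ≡ r [ZMOD p])).card : ℝ) +
          ((A₁.filter (fun x => ¬ x ≡ r [ZMOD p])).card : ℝ) = A₁.card := by exact_mod_cast h1
      have hpr : (0 : ℝ) < p := by exact_mod_cast hp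
      have hp1 : (0 : ℝ) ≤ 1 - 1 / (p : ℝ) := by
        rw [sub_nonneg, div_le_one hpr]
        exact_mod_cast hp
      rw [List.map_cons, List.prod_cons]
      calc (A.card : ℝ) * ((1 - 1 / (p : ℝ)) * (l.map (fun p : ℕ => 1 - 1 / (p : ℝ))).prod)
          = (1 - 1 / (p : ℝ)) * (A.card * (l.map (fun p : ℕ => 1 - 1 / (p : ℝ))).prod) := by ring
        _ ≤ (1 - 1 / (p : ℝ)) * A₁.card := by gcongr
        _ = A₁.card - A₁.card / p := by field_simp
        _ ≤ _ := by linarith

/-- `p` and `p + d` are consecutive primes, `p ≡ a` modulo `q`, for many `p` -/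
def GapOften (q a d : ℕ) : Prop :=
  Often (fun p => p.Prime ∧ p ≡ a [MOD q] ∧ (p + d).Prime ∧ ∀ j, 0 < j → j < d → ¬ (p + j).Prime)

/-- among any 45 elements of an admissible set in a class there are two whose difference is a gap -/
theorem pair_of (q a : ℕ) (hq : 0 < q) (ha : a.Coprime q) (S : Finset ℤ) (hS : 45 ≤ S.card)
    (hadm : ∀ p : ℕ, p.Prime → ∃ r : ℤ, ∀ s ∈ S, ¬ (p : ℤ) ∣ r + s) (s₀ : ℤ)
    (hs : ∀ s ∈ S, s ≡ s₀ [ZMOD q]) : ∃ s ∈ S, ∃ t ∈ S, s < t ∧ GapOften q a (t - s).toNat := by
  classical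
  have hne : S.Nonempty := Finset.card_pos.1 (by omega)
  set m := S.min' hne with hm
  set S' := S.image (fun s => s - m) with hS'
  have hinj : Function.Injective (fun s : ℤ => s - m) := fun x y h => by simpa using h
  have hcard : S'.card = S.card := Finset.card_image_of_injective _ hinj
  have hadm' : ∀ p : ℕ, p.Prime → ∃ r : ℤ, ∀ s ∈ S', ¬ (p : ℤ) ∣ r + s := by
    intro p hp
    obtain ⟨r, hr⟩ := hadm p hp
    refine ⟨r + m, ?_⟩
    intro s hs'
    obtain ⟨u, hu, rfl⟩ := Finset.mem_image.1 hs'
    have := hr u hu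
    rwa [show r + m + (u - m) = r + u by ring]
  set r : ℤ := a - (s₀ - m) with hr
  have hcong : ∀ s ∈ S', r + s ≡ a [ZMOD q] := by
    intro s hs'
    obtain ⟨u, hu, rfl⟩ := Finset.mem_image.1 hs'
    have h1 := hs u hu
    have h2 : r + (u - m) = a + (u - s₀) := by rw [hr]; ring
    rw [h2]
    have h3 : (u - s₀ : ℤ) ≡ 0 [ZMOD q] := by
      have := h1.sub_right s₀
      simpa using this
    simpa using h3.add_left (a : ℤ)
  have hcop : ∀ s ∈ S', IsCoprime (r + s) (q : ℤ) := by
    intro s hs'
    have h1 := hcong s hs'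
    have h2 : IsCoprime (a : ℤ) (q : ℤ) := Nat.isCoprime_iff_coprime.2 ha
    obtain ⟨k, hk⟩ := Int.modEq_iff_dvd.1 h1
    have h3 : r + s = a + q * (-k) := by linarith
    rw [h3]
    exact h2.add_mul_left_left (-k)
  obtain ⟨B, hBS, hB2, hB⟩ := Pool.Agent.Y826.ZC.exact45_of Pool.Agent.Y826.ZG.dhl45L S' (by omega) hadm' q r hq hcop
  have hBne : B.Nonempty := Finset.card_pos.1 (by omega)
  set b := B.min' hBne with hb
  have hbB : b ∈ B := B.min'_mem hBne
  have hB' : (B.erase b).Nonempty := by
    apply Finset.card_pos.1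
    rw [Finset.card_erase_of_mem hbB]
    omega
  set c := (B.erase b).min' hB' with hc
  have hcB' : c ∈ B.erase b := (B.erase b).min'_mem hB'
  have hcB : c ∈ B := Finset.mem_of_mem_erase hcB'
  have hbc : b < c := lt_of_le_of_ne (B.min'_le c hcB) (Finset.ne_of_mem_erase hcB').symm
  have hbet : ∀ y ∈ B, b < y → c ≤ y := fun y hy hby =>
    (B.erase b).min'_le y (Finset.mem_erase.2 ⟨hby.ne', hy⟩)
  obtain ⟨s, hsS, hsb⟩ := Finset.mem_image.1 (hBS hbB)
  obtain ⟨t, htS, htc⟩ := Finset.mem_image.1 (hBS hcB)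
  have hb0 : 0 ≤ b := by
    have := S.min'_le s hsS
    rw [← hsb]
    have h2 : m ≤ s := this
    simpa using h2
  refine ⟨s, hsS, t, htS, ?_, ?_⟩
  · have h1 : s - m = b := hsb
    have h2 : t - m = c := htc
    omega
  · have hd : (t - s).toNat = (c - b).toNat := by
      have h1 : s - m = b := hsb
      have h2 : t - m = c := htc
      congr 1
      omega
    rw [hd]
    have hoften : Often (fun n => (n : ℤ) ≡ r [ZMOD q] ∧ ∀ y : ℤ, |y| ≤ (c.toNat : ℕ) →
        ((∃ p : ℕ, p.Prime ∧ (p : ℤ) = n + y) ↔ y ∈ B)) := by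
      intro ε hε
      exact hB c.toNat ε hε
    apply often_shift b.toNat _ hoften
    rintro n ⟨hn1, hn2⟩
    have hbN : (b.toNat : ℤ) = b := Int.toNat_of_nonneg hb0
    have hcN : (c.toNat : ℤ) = c := Int.toNat_of_nonneg (by omega)
    have hdN : ((c - b).toNat : ℤ) = c - b := Int.toNat_of_nonneg (by omega)
    refine ⟨?_, ?_, ?_, ?_⟩
    · obtain ⟨p, hp, hpe⟩ := (hn2 b (by rw [hcN, abs_of_nonneg hb0]; omega)).2 hbB
      have : p = n + b.toNat := by
        have : (p : ℤ) = ((n + b.toNat : ℕ) : ℤ) := by push_cast; rw [hbN]; exact hpe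
        exact_mod_cast this
      rwa [← this]
    · have h1 := hcong b (hBS hbB)
      have h2 : ((n + b.toNat : ℕ) : ℤ) ≡ (a : ℤ) [ZMOD q] := by
        push_cast
        rw [hbN]
        exact (hn1.add_right b).trans h1
      exact Int.natCast_modEq_iff.1 h2
    · obtain ⟨p, hp, hpe⟩ := (hn2 c (by rw [hcN, abs_of_nonneg (by omega)])).2 hcB
      have : p = n + b.toNat + (c - b).toNat := by
        have : (p : ℤ) = ((n + b.toNat + (c - b).toNat : ℕ) : ℤ) := by
          push_cast; rw [hbN, hdN, hpe]; ring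
        exact_mod_cast this
      rwa [← this]
    · intro j hj0 hjd hjp
      have hjd' : (j : ℤ) < c - b := by rw [← hdN]; exact_mod_cast hjd
      have h1 : b + j ∈ B := (hn2 (b + j) (by rw [hcN, abs_of_nonneg (by omega)]; omega)).1
        ⟨n + b.toNat + j, hjp, by push_cast; rw [hbN]; ring⟩
      have := hbet _ h1 (by omega)
      omega

end Pool.Agent.Q51.CP
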