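import Mathlib
import Pool.Agent.W68.HerShift

/-!
Partitions of the primes and exact patterns.
-/

set_option autoImplicit false

namespace Pool.Agent.Q51.CP.Col

open Pool.Agent.H38R3.Ell Pool.Agent.W68.Her Filter

/-- the value of a form -/
def val (f : ℤ × ℤ) (n : ℕ) : ℕ := (f.1 * n + f.2).toNat

/-- `E` is an exact pattern of linear forms for the set `P`. -/
def ExC (P : Set ℕ) (E : Set (ℤ × ℤ)) : Prop :=
  ∀ T : Finset (ℤ × ℤ), (∀ f ∈ T, 1 ≤ f.1) → {n : ℕ | ∀ f ∈ T, (val f n ∈ P ↔ f ∈ E)}.Infinite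

theorem congr_infC {P : Set ℕ} {T : Finset (ℤ × ℤ)} {E E' : Set (ℤ × ℤ)}
    (h : ∀ f ∈ T, (f ∈ E ↔ f ∈ E'))
    (hE : {n : ℕ | ∀ f ∈ T, (val f n ∈ P ↔ f ∈ E)}.Infinite) :
    {n : ℕ | ∀ f ∈ T, (val f n ∈ P ↔ f ∈ E')}.Infinite := by
  refine hE.mono fun n hn f hf => ?_
  rw [hn f hf, h f hf]

/-- the limit argument -/
theorem limit_class {k : ℕ} (P : Fin k → Set ℕ) (hP1 : ∀ i, ∀ p ∈ P i, p.Prime)
    (hP2 : ∀ p : ℕ, p.Prime → ∃ i, p ∈ P i) {G : Set (ℤ × ℤ)} (hG1 : ∀ f ∈ G, 1 ≤ f.1)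
    (hG : G.Infinite) (hex : ExF G) : ∃ i : Fin k, ∃ E ⊆ G, E.Infinite ∧ ExC (P i) E := by
  classical
  -- finite sets of forms exhausting all
  obtain ⟨e, he⟩ := exists_surjective_nat (ℤ × ℤ)
  let T : ℕ → Finset (ℤ × ℤ) := fun m => ((Finset.range m).image e).filter (fun f => 1 ≤ f.1)
  have hT1 : ∀ m, ∀ f ∈ T m, 1 ≤ f.1 := fun m f hf => (Finset.mem_filter.1 hf).2
  have hT2 : ∀ f : ℤ × ℤ, 1 ≤ f.1 → ∃ m₀, ∀ m ≥ m₀, f ∈ T m := by
    intro f hf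
    obtain ⟨a, ha⟩ := he f
    refine ⟨a + 1, fun m hm => Finset.mem_filter.2 ⟨Finset.mem_image.2 ⟨a, ?_, ha⟩, hf⟩⟩
    rw [Finset.mem_range]
    omega
  -- a sequence of places
  have hsel : ∀ m N : ℕ, ∃ n, N < n ∧ ∀ f ∈ T m, (Nat.Prime (val f n) ↔ f ∈ G) := by
    intro m N
    obtain ⟨n, hn1, hn2⟩ := (hex (T m) (hT1 m)).exists_gt N
    exact ⟨n, hn2, hn1⟩
  choose s hs1 hs2 using hsel
  let n : ℕ → ℕ := fun m => Nat.rec (s 0 0) (fun j x => s (j + 1) x) m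
  have hn : ∀ m, n (m + 1) = s (m + 1) (n m) := fun m => rfl
  have hnm : StrictMono n := strictMono_nat_of_lt_succ fun m => by
    rw [hn]
    exact hs1 _ _
  have hnT : ∀ m, ∀ f ∈ T m, (Nat.Prime (val f (n m)) ↔ f ∈ G) := by
    intro m
    rcases m with _ | m
    · exact hs2 0 0
    · rw [hn]
      exact hs2 (m + 1) (n m)
  -- an ultrafilter
  let U : Ultrafilter ℕ := hyperfilter ℕ
  have hU : (U : Filter ℕ) ≤ atTop := by
    rw [← Nat.cofinite_eq_atTop]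
    exact hyperfilter_le_cofinite
  have hev : ∀ f : ℤ × ℤ, 1 ≤ f.1 → ∀ᶠ m in (U : Filter ℕ),
      (Nat.Prime (val f (n m)) ↔ f ∈ G) := by
    intro f hf
    obtain ⟨m₀, hm₀⟩ := hT2 f hf
    exact hU (eventually_atTop.2 ⟨m₀, fun m hm => hnT m f (hm₀ m hm)⟩)
  let E : Fin k → Set (ℤ × ℤ) := fun i => {f | 1 ≤ f.1 ∧ ∀ᶠ m in (U : Filter ℕ), val f (n m) ∈ P i}
  have hEG : ∀ i, E i ⊆ G := by
    intro i f hf
    obtain ⟨m, hm1, hm2⟩ := ((hev f hf.1).and hf.2).exists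
    exact hm1.1 (hP1 i _ hm2)
  have hGE : G ⊆ ⋃ i, E i := by
    intro f hf
    have h1 : ∀ᶠ m in (U : Filter ℕ), ∃ i : Fin k, val f (n m) ∈ P i := by
      filter_upwards [hev f (hG1 f hf)] with m hm
      exact hP2 _ (hm.2 hf)
    have h2 : ∃ i : Fin k, ∀ᶠ m in (U : Filter ℕ), val f (n m) ∈ P i := by
      have h3 : (⋃ i : Fin k, {m : ℕ | val f (n m) ∈ P i}) ∈ U := by
        filter_upwards [h1] with m hm
        exact Set.mem_iUnion.2 hm
      have h4 := (Ultrafilter.finite_biUnion_mem_iff (f := U) (is := (Set.univ : Set (Fin k)))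
        (s := fun i => {m : ℕ | val f (n m) ∈ P i}) Set.finite_univ).1 (by
          rw [Set.biUnion_univ]
          exact h3)
      obtain ⟨i, -, hi⟩ := h4
      exact ⟨i, hi⟩
    obtain ⟨i, hi⟩ := h2
    exact Set.mem_iUnion.2 ⟨i, hG1 f hf, hi⟩
  have hinf : ∃ i, (E i).Infinite := by
    by_contra hno
    push Not at hno
    exact hG ((Set.finite_iUnion (fun i => by
      have := hno i
      exact this)).subset hGE)
  obtain ⟨i, hi⟩ := hinf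
  refine ⟨i, E i, hEG i, hi, fun S hS => ?_⟩
  -- exactness
  have h1 : ∀ᶠ m in (U : Filter ℕ), ∀ f ∈ S, (val f (n m) ∈ P i ↔ f ∈ E i) := by
    rw [Filter.eventually_all_finset]
    intro f hf
    by_cases h : f ∈ E i
    · filter_upwards [h.2] with m hm
      simp [hm, h]
    · have h2 : ¬ ∀ᶠ m in (U : Filter ℕ), val f (n m) ∈ P i := fun h3 => h ⟨hS f hf, h3⟩
      rw [← Ultrafilter.eventually_not] at h2
      filter_upwards [h2] with m hm
      simp [hm, h]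
  have h2 : {m : ℕ | ∀ f ∈ S, (val f (n m) ∈ P i ↔ f ∈ E i)}.Infinite := by
    intro hfin
    have h3 := (hfin.compl_mem_hyperfilter)
    have h4 : {m : ℕ | ∀ f ∈ S, (val f (n m) ∈ P i ↔ f ∈ E i)} ∈ hyperfilter ℕ := h1
    have h5 := Filter.inter_mem h4 h3
    rw [Set.inter_compl_self] at h5
    exact Filter.empty_notMem _ h5
  refine (h2.image hnm.injective.injOn).mono ?_
  rintro _ ⟨m, hm, rfl⟩
  exact hm

/-- the sets of indices whose forms are not an exact pattern are Ellentuck open -/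
theorem eoC (P : Set ℕ) {F : ℕ → ℤ × ℤ} (hF : Function.Injective F) :
    EO {z : Set ℕ | ¬ ExC P (F '' z)} := by
  intro z hz hzi
  simp only [Set.mem_ofPred_eq] at hz
  unfold ExC at hz
  push Not at hz
  obtain ⟨T, hT1, hT2⟩ := hz
  obtain ⟨N, hN⟩ := preimage_bdd hF T
  obtain ⟨u, hu1, hu2, hu3, -⟩ := exists_init hzi N 0
  refine ⟨u, hu1, fun w hw hE => ?_⟩
  have h1 := hE T hT1
  have h2 := congr_infC (E' := F '' z) (fun f hf => ?_) h1
  · exact h2 hT2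
  · constructor
    · rintro ⟨a, ha, rfl⟩
      refine ⟨a, ?_, rfl⟩
      rcases hw.2.2 a ha with h | h
      · exact hu3 a h
      · exact h.1
    · rintro ⟨a, ha, rfl⟩
      exact ⟨a, hw.2.1 a (hu2 a ha (hN a hf)), rfl⟩

/-- homogeneous for finitely many classes -/
theorem homog {k : ℕ} (P : Fin k → Set ℕ) {F : ℕ → ℤ × ℤ} (hF : Function.Injective F)
    (s : Finset (Fin k)) (Y : Set ℕ) (hY : Y.Infinite) : ∃ Y' ⊆ Y, Y'.Infinite ∧
      ∀ i ∈ s, (∀ z ∈ Nb ∅ Y', ExC (P i) (F '' z)) ∨ (∀ z ∈ Nb ∅ Y', ¬ ExC (P i) (F '' z)) := by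
  classical
  induction s using Finset.induction_on with
  | empty => exact ⟨Y, le_rfl, hY, by simp⟩
  | insert i s _ ih =>
    obtain ⟨Y₁, h1, h2, h3⟩ := ih
    obtain ⟨Y₂, h4, h5, h6⟩ := (eoC (P i) hF).cr ∅ Y₁ h2
    refine ⟨Y₂, h4.trans h1, h5, fun j hj => ?_⟩
    rcases Finset.mem_insert.1 hj with rfl | hj
    · rcases h6 with h6 | h6
      · exact Or.inr (fun z hz => h6 z hz)
      · left
        intro z hz
        by_contra h
        exact h6 z hz h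
    · rcases h3 j hj with h | h
      · exact Or.inl (fun z hz => h z (Nb_mono h4 hz))
      · exact Or.inr (fun z hz => h z (Nb_mono h4 hz))

/-- every infinite set of primitive forms contains an infinite set all of whose subsets are exact
patterns of one class -/
theorem coreC {k : ℕ} (P : Fin k → Set ℕ) (hP1 : ∀ i, ∀ p ∈ P i, p.Prime)
    (hP2 : ∀ p : ℕ, p.Prime → ∃ i, p ∈ P i) {F : ℕ → ℤ × ℤ} (hF : Function.Injective F)
    (Y : Set ℕ) (hY : Y.Infinite) (hp : ∀ a ∈ Y, 1 ≤ (F a).1 ∧ IsCoprime (F a).1 (F a).2) :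
    ∃ Y' ⊆ Y, Y'.Infinite ∧ ∃ i, ∀ U ⊆ Y', ExC (P i) (F '' U) := by
  obtain ⟨Y', h1, h2, h3⟩ := homog P hF Finset.univ Y hY
  obtain ⟨G, hG1, hG2, hG3⟩ := Pool.Agent.H361R2.Inf.exact_infinite (F '' Y')
    (h2.image hF.injOn) (by
      rintro _ ⟨a, ha, rfl⟩
      exact hp a (h1 ha))
  obtain ⟨i, E, hEG, hE, hEx⟩ := limit_class P hP1 hP2 (fun f hf => by
    obtain ⟨a, ha, rfl⟩ := hG1 hf
    exact (hp a (h1 ha)).1) hG2 hG3
  have h5 : F '' (F ⁻¹' E ∩ Y') = E := by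
    ext f
    constructor
    · rintro ⟨a, ha, rfl⟩
      exact ha.1
    · intro hf
      obtain ⟨a, ha, rfl⟩ := hG1 (hEG hf)
      exact ⟨a, ⟨hf, ha⟩, rfl⟩
  have h6 : (F ⁻¹' E ∩ Y').Infinite := by
    intro hfin
    apply hE
    rw [← h5]
    exact hfin.image F
  have h7 : ∀ z ∈ Nb ∅ Y', ExC (P i) (F '' z) := by
    rcases h3 i (Finset.mem_univ _) with h | h
    · exact h
    · exfalso
      refine h (F ⁻¹' E ∩ Y') ⟨h6, by simp, fun n hn => Or.inr ⟨hn.2, by simp⟩⟩ ?_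
      rw [h5]
      exact hEx
  refine ⟨Y', h1, h2, i, fun U hU T hT => ?_⟩
  obtain ⟨N, hN⟩ := preimage_bdd hF T
  have h8 : (Y' \ Set.Iio N).Infinite := h2.sdiff (Set.finite_Iio N)
  have h9 := h7 (U ∪ (Y' \ Set.Iio N)) ⟨h8.mono Set.subset_union_right, by simp, fun n hn => by
    right
    refine ⟨?_, by simp⟩
    rcases hn with h | h
    · exact hU h
    · exact h.1⟩
  refine congr_infC (fun f hf => ?_) (h9 T hT)
  constructor
  · rintro ⟨a, ha, rfl⟩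
    rcases ha with ha | ha
    · exact ⟨a, ha, rfl⟩
    · exact absurd (hN a hf) ha.2
  · rintro ⟨a, ha, rfl⟩
    exact ⟨a, Or.inl ha, rfl⟩

/-- the empty pattern is exact for every set of primes -/
theorem exC_empty (P : Set ℕ) (hP : ∀ p ∈ P, p.Prime) : ExC P ∅ := by
  intro T hT
  refine (exF_empty T hT).mono (fun n hn f hf => ?_)
  constructor
  · intro h
    exact (hn f hf).1 (hP _ h)
  · intro h
    exact absurd h (Set.notMem_empty f)

/-- one step: forms which need not be primitive -/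
theorem stepC {k : ℕ} (hk : 0 < k) (P : Fin k → Set ℕ) (hP1 : ∀ i, ∀ p ∈ P i, p.Prime)
    (hP2 : ∀ p : ℕ, p.Prime → ∃ i, p ∈ P i) {F : ℕ → ℤ × ℤ} (hF : Function.Injective F)
    (Y : Set ℕ) (hY : Y.Infinite) :
    ∃ Y' ⊆ Y, Y'.Infinite ∧ ∃ i, ∀ U ⊆ Y',
      (∀ a ∈ U, 1 ≤ (F a).1 ∧ IsCoprime (F a).1 (F a).2) → ExC (P i) (F '' U) := by
  by_cases h : {a ∈ Y | 1 ≤ (F a).1 ∧ IsCoprime (F a).1 (F a).2}.Infinite
  · obtain ⟨Y', h1, h2, i, h3⟩ := coreC P hP1 hP2 hF _ h (fun a ha => ha.2)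
    exact ⟨Y', fun a ha => (h1 ha).1, h2, i, fun U hU _ => h3 U hU⟩
  · rw [Set.not_infinite] at h
    refine ⟨_, Set.sdiff_subset, hY.sdiff h, ⟨0, hk⟩, fun U hU hU2 => ?_⟩
    have : U = ∅ := by
      rw [Set.eq_empty_iff_forall_notMem]
      intro a ha
      exact (hU ha).2 ⟨(hU ha).1, hU2 a ha⟩
    rw [this, Set.image_empty]
    exact exC_empty _ (hP1 _)

/-- the theorem for countably many injective families of forms and partitions -/
theorem main_formsC (F : ℕ → ℕ → ℤ × ℤ) (hF : ∀ j, Function.Injective (F j)) (k : ℕ → ℕ)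
    (hk : ∀ j, 0 < k j) (P : ∀ j, Fin (k j) → Set ℕ) (hP1 : ∀ j i, ∀ p ∈ P j i, p.Prime)
    (hP2 : ∀ j, ∀ p : ℕ, p.Prime → ∃ i, p ∈ P j i) :
    ∃ b : ℕ → ℕ, StrictMono b ∧ ∀ j : ℕ, ∃ i : Fin (k j), ∀ I : Set ℕ,
      (∀ a ∈ I, j ≤ a ∧ 1 ≤ (F j (b a)).1 ∧ IsCoprime (F j (b a)).1 (F j (b a)).2) →
      ExC (P j i) ((fun a => F j (b a)) '' I) := by
  have hstep : ∀ (j : ℕ) (Y : {Y : Set ℕ // Y.Infinite}), ∃ Z : {Y : Set ℕ // Y.Infinite},
      Z.1 ⊆ Y.1 ∧ ∃ i, ∀ U ⊆ Z.1, (∀ a ∈ U, 1 ≤ (F j a).1 ∧ IsCoprime (F j a).1 (F j a).2) →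
        ExC (P j i) (F j '' U) := by
    intro j Y
    obtain ⟨Z, h1, h2, h3⟩ := stepC (hk j) (P j) (hP1 j) (hP2 j) (hF j) Y.1 Y.2
    exact ⟨⟨Z, h2⟩, h1, h3⟩
  choose nx hnx1 hnx2 using hstep
  let s : ℕ → {Y : Set ℕ // Y.Infinite} := fun k =>
    Nat.rec (nx 0 ⟨Set.univ, Set.infinite_univ⟩) (fun j Y => nx (j + 1) Y) k
  have hs : ∀ k, s (k + 1) = nx (k + 1) (s k) := fun k => rfl
  have hgood : ∀ l, ∃ i, ∀ U ⊆ (s l).1,
      (∀ a ∈ U, 1 ≤ (F l a).1 ∧ IsCoprime (F l a).1 (F l a).2) → ExC (P l i) (F l '' U) := by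
    intro l
    rcases l with _ | l
    · exact hnx2 0 _
    · rw [hs]
      exact hnx2 (l + 1) _
  have hanti : Antitone fun k => (s k).1 := antitone_nat_of_succ_le fun k => by
    show (s (k + 1)).1 ⊆ (s k).1
    rw [hs]
    exact hnx1 _ _
  have hex : ∀ (k m : ℕ), ∃ a ∈ (s k).1, m < a := fun k m => (s k).2.exists_gt m
  choose g hg1 hg2 using hex
  let b : ℕ → ℕ := fun k => Nat.rec (g 0 0) (fun j x => g (j + 1) x) k
  have hb : ∀ k, b (k + 1) = g (k + 1) (b k) := fun k => rfl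
  have hbm : StrictMono b := strictMono_nat_of_lt_succ fun k => by
    rw [hb]
    exact hg2 _ _
  have hbs : ∀ k, b k ∈ (s k).1 := by
    intro k
    rcases k with _ | k
    · exact hg1 0 0
    · exact hg1 (k + 1) (b k)
  refine ⟨b, hbm, fun j => ?_⟩
  obtain ⟨i, hi⟩ := hgood j
  refine ⟨i, fun I hI => ?_⟩
  have h1 : (fun i => F j (b i)) '' I = F j '' (b '' I) := by
    rw [Set.image_image]
  rw [h1]
  apply hi
  · rintro _ ⟨a, ha, rfl⟩
    exact hanti (hI a ha).1 (hbs a)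
  · rintro _ ⟨a, ha, rfl⟩
    exact (hI a ha).2

/-- shifts, with congruence conditions -/
theorem main_shiftsC (φ : ℕ → ℕ → ℤ) (hφ : ∀ j, Function.Injective (φ j)) (q : ℕ → ℕ)
    (hq : ∀ j, 1 ≤ q j) (r : ℕ → ℤ) (k : ℕ → ℕ)
    (hk : ∀ j, 0 < k j) (P : ∀ j, Fin (k j) → Set ℕ) (hP1 : ∀ j i, ∀ p ∈ P j i, p.Prime)
    (hP2 : ∀ j, ∀ p : ℕ, p.Prime → ∃ i, p ∈ P j i) :
    ∃ b : ℕ → ℕ, StrictMono b ∧ ∀ j : ℕ, ∃ i : Fin (k j), ∀ I : Set ℕ,
      (∀ a ∈ I, j ≤ a ∧ IsCoprime (r j + φ j (b a)) (q j : ℤ)) →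
      ∀ R : ℕ, {n : ℕ | (n : ℤ) ≡ r j [ZMOD q j] ∧
        ∀ y : ℤ, |y| ≤ R → (((n : ℤ) + y).toNat ∈ P j i ↔ ∃ a ∈ I, φ j (b a) = y)}.Infinite := by
  classical
  obtain ⟨b, hb, h⟩ := main_formsC (fun j a => ((q j : ℤ), r j + φ j a)) (fun j a a' haa' => by
    apply hφ j
    have := (Prod.ext_iff.1 haa').2
    simp only at this
    linarith) k hk P hP1 hP2
  refine ⟨b, hb, fun j => ?_⟩
  obtain ⟨i, hi⟩ := h j
  refine ⟨i, fun I hI R => ?_⟩
  have hq0 : (1 : ℤ) ≤ (q j : ℤ) := by exact_mod_cast hq j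
  have h1 := hi I (fun a ha => ⟨(hI a ha).1, hq0, (hI a ha).2.symm⟩)
  set T : Finset (ℤ × ℤ) := (Finset.Icc (-(R : ℤ)) R).image (fun y => ((q j : ℤ), r j + y)) with hT
  have h2 := h1 T (by
    intro f hf
    obtain ⟨y, -, rfl⟩ := Finset.mem_image.1 hf
    exact hq0)
  set S := {m : ℕ | ∀ f ∈ T, (val f m ∈ P j i ↔
    f ∈ (fun a => ((q j : ℤ), r j + φ j (b a))) '' I)} with hS
  have h3 : (S \ Set.Iio (r j).natAbs).Infinite := h2.sdiff (Set.finite_Iio _)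
  have hpos : ∀ m : ℕ, (r j).natAbs ≤ m → (((((q j : ℤ) * m + r j).toNat : ℕ)) : ℤ) =
      (q j : ℤ) * m + r j := by
    intro m hm
    apply Int.toNat_of_nonneg
    have h4 : ((r j).natAbs : ℤ) ≤ m := by exact_mod_cast hm
    rw [Int.natCast_natAbs] at h4
    have h5 := neg_abs_le (r j)
    nlinarith
  have hinj : Set.InjOn (fun m : ℕ => ((q j : ℤ) * m + r j).toNat) (S \ Set.Iio (r j).natAbs) := by
    intro m hm m' hm' hmm'
    have e1 := hpos m (not_lt.1 hm.2)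
    have e2 := hpos m' (not_lt.1 hm'.2)
    simp only at hmm'
    rw [hmm', e2] at e1
    have e3 : (q j : ℤ) * m' = (q j : ℤ) * m := by linarith
    have e4 := mul_left_cancel₀ (by linarith : (q j : ℤ) ≠ 0) e3
    exact_mod_cast e4.symm
  refine (h3.image hinj).mono ?_
  rintro _ ⟨m, ⟨hm, hm2⟩, rfl⟩
  have e1 := hpos m (not_lt.1 hm2)
  refine ⟨?_, fun y hy => ?_⟩
  · simp only
    rw [e1]
    exact Int.modEq_iff_dvd.2 ⟨-m, by ring⟩
  · simp only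
    rw [e1]
    have h5 := hm ((q j : ℤ), r j + y) (Finset.mem_image.2 ⟨y, Finset.mem_Icc.2 (abs_le.1 hy), rfl⟩)
    rw [show ((q j : ℤ) * m + r j + y).toNat = val ((q j : ℤ), r j + y) m by
      unfold val
      congr 1
      ring]
    rw [h5]
    constructor
    · rintro ⟨a, ha, hae⟩
      refine ⟨a, ha, ?_⟩
      have := (Prod.ext_iff.1 hae).2
      simp only at this
      linarith
    · rintro ⟨a, ha, hae⟩
      exact ⟨a, ha, by simp only; rw [hae]⟩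

end Pool.Agent.Q51.CP.Col
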