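import Mathlib
import Pool.Agent.Q51.CP.Col
import Pool.Agent.H361R2.InfSeq

/-!
Partitions of the primes and exact patterns, with quantity.
-/

set_option autoImplicit false

namespace Pool.Agent.Q51.CP.Col

open Pool.Agent.H38R3.Ell Pool.Agent.W68.Her Filter

/-- the limit argument, all classes at once -/
theorem limit_classes {k : ℕ} (P : Fin k → Set ℕ) (hP1 : ∀ i, ∀ p ∈ P i, p.Prime)
    (hP2 : ∀ p : ℕ, p.Prime → ∃ i, p ∈ P i) {G : Set (ℤ × ℤ)} (hG1 : ∀ f ∈ G, 1 ≤ f.1)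
    (hex : ExF G) : ∃ E : Fin k → Set (ℤ × ℤ), (∀ i, E i ⊆ G) ∧ G ⊆ (⋃ i, E i) ∧
      ∀ i, ExC (P i) (E i) := by
  classical
  obtain ⟨e, he⟩ := exists_surjective_nat (ℤ × ℤ)
  let T : ℕ → Finset (ℤ × ℤ) := fun m => ((Finset.range m).image e).filter (fun f => 1 ≤ f.1)
  have hT1 : ∀ m, ∀ f ∈ T m, 1 ≤ f.1 := fun m f hf => (Finset.mem_filter.1 hf).2
  have hT2 : ∀ f : ℤ × ℤ, 1 ≤ f.1 → ∃ m₀, ∀ m ≥ m₀, f ∈ T m := by
    intro f hf
    obtain ⟨a, ha⟩ := he f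
    refine ⟨a + 1, fun m hm => Finset.mem_filter.2 ⟨Finset.mem_image.2 ⟨a, ?_, ha⟩, hf⟩⟩
    rw [Finset.mem_range]
    omega
  have hsel : ∀ m N : ℕ, ∃ n, N < n ∧ ∀ f ∈ T m, (Nat.Prime (val f n) ↔ f ∈ G) := by
    intro m N
    obtain ⟨n, hn1, hn2⟩ := (hex (T m) (hT1 m)).exists_gt N
    exact ⟨n, hn2, hn1⟩
  choose s hs1 hs2 using hsel
  let n : ℕ → ℕ := fun m => Nat.rec (s 0 0) (fun j x => s (j + 1) x) m
  have hn : ∀ m, n (m + 1) = s (m + 1) (n m) := fun m => rfl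
  have hnm : StrictMono n := strictMono_nat_of_lt_succ fun m => by
    rw [hn]
    exact hs1 _ _
  have hnT : ∀ m, ∀ f ∈ T m, (Nat.Prime (val f (n m)) ↔ f ∈ G) := by
    intro m
    rcases m with _ | m
    · exact hs2 0 0
    · rw [hn]
      exact hs2 (m + 1) (n m)
  let U : Ultrafilter ℕ := hyperfilter ℕ
  have hU : (U : Filter ℕ) ≤ atTop := by
    rw [← Nat.cofinite_eq_atTop]
    exact hyperfilter_le_cofinite
  have hev : ∀ f : ℤ × ℤ, 1 ≤ f.1 → ∀ᶠ m in (U : Filter ℕ),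
      (Nat.Prime (val f (n m)) ↔ f ∈ G) := by
    intro f hf
    obtain ⟨m₀, hm₀⟩ := hT2 f hf
    exact hU (eventually_atTop.2 ⟨m₀, fun m hm => hnT m f (hm₀ m hm)⟩)
  let E : Fin k → Set (ℤ × ℤ) := fun i => {f | 1 ≤ f.1 ∧ ∀ᶠ m in (U : Filter ℕ), val f (n m) ∈ P i}
  refine ⟨E, ?_, ?_, ?_⟩
  · intro i f hf
    obtain ⟨m, hm1, hm2⟩ := ((hev f hf.1).and hf.2).exists
    exact hm1.1 (hP1 i _ hm2)
  · intro f hf
    have h1 : ∀ᶠ m in (U : Filter ℕ), ∃ i : Fin k, val f (n m) ∈ P i := by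
      filter_upwards [hev f (hG1 f hf)] with m hm
      exact hP2 _ (hm.2 hf)
    have h2 : ∃ i : Fin k, ∀ᶠ m in (U : Filter ℕ), val f (n m) ∈ P i := by
      have h3 : (⋃ i : Fin k, {m : ℕ | val f (n m) ∈ P i}) ∈ U := by
        filter_upwards [h1] with m hm
        exact Set.mem_iUnion.2 hm
      have h4 := (Ultrafilter.finite_biUnion_mem_iff (f := U) (is := (Set.univ : Set (Fin k)))
        (s := fun i => {m : ℕ | val f (n m) ∈ P i}) Set.finite_univ).1 (by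
          rw [Set.biUnion_univ]
          exact h3)
      obtain ⟨i, -, hi⟩ := h4
      exact ⟨i, hi⟩
    obtain ⟨i, hi⟩ := h2
    exact Set.mem_iUnion.2 ⟨i, hG1 f hf, hi⟩
  · intro i S hS
    have h1 : ∀ᶠ m in (U : Filter ℕ), ∀ f ∈ S, (val f (n m) ∈ P i ↔ f ∈ E i) := by
      rw [Filter.eventually_all_finset]
      intro f hf
      by_cases h : f ∈ E i
      · filter_upwards [h.2] with m hm
        simp [hm, h]
      · have h2 : ¬ ∀ᶠ m in (U : Filter ℕ), val f (n m) ∈ P i := fun h3 => h ⟨hS f hf, h3⟩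
        rw [← Ultrafilter.eventually_not] at h2
        filter_upwards [h2] with m hm
        simp [hm, h]
    have h2 : {m : ℕ | ∀ f ∈ S, (val f (n m) ∈ P i ↔ f ∈ E i)}.Infinite := by
      intro hfin
      have h3 := (hfin.compl_mem_hyperfilter)
      have h4 : {m : ℕ | ∀ f ∈ S, (val f (n m) ∈ P i ↔ f ∈ E i)} ∈ hyperfilter ℕ := h1
      have h5 := Filter.inter_mem h4 h3
      rw [Set.inter_compl_self] at h5
      exact Filter.empty_notMem _ h5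
    refine (h2.image hnm.injective.injOn).mono ?_
    rintro _ ⟨m, hm, rfl⟩
    exact hm

/-- a part of a near-logarithmic set is near-logarithmic -/
theorem logDense_part {k : ℕ} {I : Set ℕ} {J : Fin k → Set ℕ} (hIJ : I ⊆ ⋃ c, J c) {ε : ℝ}
    (hε : 0 < ε) (hI : ∃ᶠ X : ℕ in atTop, (Real.log X) ^ (1 - ε / 2) ≤ ((I ∩ Set.Iio X).ncard : ℝ)) :
    ∃ c, ∃ᶠ X : ℕ in atTop, (Real.log X) ^ (1 - ε) ≤ ((J c ∩ Set.Iio X).ncard : ℝ) := by
  classical
  by_contra hno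
  push Not at hno
  have h2 : ∀ᶠ X : ℕ in atTop, ∀ c, ((J c ∩ Set.Iio X).ncard : ℝ) < (Real.log X) ^ (1 - ε) :=
    Filter.eventually_all.2 hno
  have h3 : Tendsto (fun X : ℕ => (Real.log X) ^ (ε / 2)) atTop atTop :=
    (tendsto_rpow_atTop (by linarith)).comp
      (Real.tendsto_log_atTop.comp tendsto_natCast_atTop_atTop)
  obtain ⟨X, hX1, hX2, hX3, hX4⟩ := (hI.and_eventually (h2.and ((h3.eventually_gt_atTop (k : ℝ)).and
    (eventually_ge_atTop 3)))).exists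
  have hX4' : (3 : ℝ) ≤ X := by exact_mod_cast hX4
  have hl : 0 < Real.log X := Real.log_pos (by linarith)
  have h4 : (I ∩ Set.Iio X).ncard ≤ ∑ c : Fin k, (J c ∩ Set.Iio X).ncard := by
    have h5 : I ∩ Set.Iio X ⊆ ⋃ c ∈ (Finset.univ : Finset (Fin k)), (J c ∩ Set.Iio X) := by
      rintro n ⟨hn1, hn2⟩
      obtain ⟨c, hc⟩ := Set.mem_iUnion.1 (hIJ hn1)
      exact Set.mem_biUnion (Finset.mem_univ c) ⟨hc, hn2⟩
    refine (Set.ncard_le_ncard h5 ?_).trans (Finset.set_ncard_biUnion_le _ _)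
    exact Set.Finite.biUnion (Finset.finite_toSet _)
      (fun c _ => (Set.finite_Iio X).subset Set.inter_subset_right)
  have h5 : ((I ∩ Set.Iio X).ncard : ℝ) ≤ k * (Real.log X) ^ (1 - ε) := by
    calc ((I ∩ Set.Iio X).ncard : ℝ) ≤ ∑ c : Fin k, ((J c ∩ Set.Iio X).ncard : ℝ) := by
          exact_mod_cast h4
      _ ≤ ∑ c : Fin k, (Real.log X) ^ (1 - ε) := Finset.sum_le_sum (fun c _ => (hX2 c).le)
      _ = k * (Real.log X) ^ (1 - ε) := by simp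
  have h6 : (k : ℝ) * (Real.log X) ^ (1 - ε) < (Real.log X) ^ (1 - ε / 2) := by
    calc (k : ℝ) * (Real.log X) ^ (1 - ε) < (Real.log X) ^ (ε / 2) * (Real.log X) ^ (1 - ε) :=
          mul_lt_mul_of_pos_right hX3 (Real.rpow_pos_of_pos hl _)
      _ = (Real.log X) ^ (1 - ε / 2) := by
          rw [← Real.rpow_add hl]
          congr 1
          ring
  linarith

theorem quant {k : ℕ} (P : Fin k → Set ℕ) (hP1 : ∀ i, ∀ p ∈ P i, p.Prime)
    (hP2 : ∀ p : ℕ, p.Prime → ∃ i, p ∈ P i) (A B : ℕ → ℤ) (hA : ∀ i, 1 ≤ A i)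
    (hcop : ∀ i, IsCoprime (A i) (B i)) (hinj : Function.Injective (fun i => (A i, B i)))
    (ε : ℝ) (hε : 0 < ε) : ∃ c : Fin k, ∃ I : Set ℕ, I.Infinite ∧
      ((∀ p : ℕ, p.Prime → ∃ n : ℕ, ∀ i, ¬ (p : ℤ) ∣ A i * n + B i) →
        ∃ᶠ X : ℕ in Filter.atTop, (Real.log X) ^ (1 - ε) ≤ ((I ∩ Set.Iio X).ncard : ℝ)) ∧
      ExC (P c) ((fun i => (A i, B i)) '' I) := by
  classical
  set e : ℝ := min ε (1 / 2) with he
  have he0 : 0 < e := lt_min hε (by norm_num)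
  have he1 : e ≤ 1 / 2 := min_le_right _ _
  have he2 : e ≤ ε := min_le_left _ _
  obtain ⟨I, hI1, hI2, hI3⟩ := Pool.Agent.H361R2.Inf.seq_exact A B hA hcop hinj (e / 2) (by positivity)
  set F : ℕ → ℤ × ℤ := fun i => (A i, B i) with hF
  have hex : ExF (F '' I) := by
    intro T hT
    refine (hI3 T hT).mono (fun n hn f hf => ?_)
    rw [hn f hf]
    constructor
    · rintro ⟨i, hi, rfl⟩
      exact ⟨i, hi, rfl⟩
    · rintro ⟨i, hi, rfl⟩
      exact ⟨i, hi, rfl⟩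
  obtain ⟨E, hE1, hE2, hE3⟩ := limit_classes P hP1 hP2 (G := F '' I) (by
    rintro _ ⟨i, _, rfl⟩
    exact hA i) hex
  set J : Fin k → Set ℕ := fun c => I ∩ F ⁻¹' (E c) with hJ
  have hIJ : I ⊆ ⋃ c, J c := by
    intro i hi
    obtain ⟨c, hc⟩ := Set.mem_iUnion.1 (hE2 ⟨i, hi, rfl⟩)
    exact Set.mem_iUnion.2 ⟨c, hi, hc⟩
  have hJE : ∀ c, F '' (J c) = E c := by
    intro c
    ext f
    constructor
    · rintro ⟨i, hi, rfl⟩
      exact hi.2
    · intro hf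
      obtain ⟨i, hi, rfl⟩ := hE1 c hf
      exact ⟨i, ⟨hi, hf⟩, rfl⟩
  by_cases hadm : ∀ p : ℕ, p.Prime → ∃ n : ℕ, ∀ i, ¬ (p : ℤ) ∣ A i * n + B i
  · obtain ⟨c, hc⟩ := logDense_part hIJ he0 (hI2 hadm)
    have hc' : Pool.Agent.H361R2.Inf.LogDense (1 - e) (J c) := hc
    refine ⟨c, J c, hc'.infinite (by linarith), fun _ => hc'.mono (by linarith), ?_⟩
    rw [hJE]
    exact hE3 c
  · have hinf : ∃ c, (J c).Infinite := by
      by_contra hno
      push Not at hno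
      exact hI1 ((Set.finite_iUnion (fun c => hno c)).subset hIJ)
    obtain ⟨c, hc⟩ := hinf
    refine ⟨c, J c, hc, fun h => absurd h hadm, ?_⟩
    rw [hJE]
    exact hE3 c

end Pool.Agent.Q51.CP.Col
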