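import Mathlib
import Pool.Agent.Q51.CP.ColQ
import Pool.Agent.H361R2.InfCor2

/-!
Partitions of the primes and Cunningham orbits.
-/

set_option autoImplicit false

namespace Pool.Agent.Q51.CP.Col

open Filter Pool.Agent.H361R2.Inf

/-- orbits of integers -/
theorem orb (δ : ℤ) (hδ : δ = 1 ∨ δ = -1) {k : ℕ} (P : Fin k → Set ℕ)
    (hP1 : ∀ i, ∀ p ∈ P i, p.Prime) (hP2 : ∀ p : ℕ, p.Prime → ∃ i, p ∈ P i)
    (ε : ℝ) (hε : 0 < ε) : ∃ c : Fin k, ∃ I : Set ℕ, I.Infinite ∧ LogDense (1 - ε) I ∧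
      ∀ M : ℕ, {n : ℕ | ∀ j ≤ M, ((∃ p ∈ P c, (p : ℤ) = 2 ^ j * n + δ) ↔ j ∈ I)}.Infinite := by
  have hpw : ∀ i j : ℕ, (2 : ℤ) ^ i = 2 ^ j → i = j := by
    intro i j h
    have h3 : (2 : ℕ) ^ i = 2 ^ j := by exact_mod_cast h
    exact Nat.pow_right_injective le_rfl h3
  obtain ⟨c, I, h0, h1, h2⟩ := quant P hP1 hP2 (fun i => 2 ^ i) (fun _ => δ)
    (fun _ => one_le_pow₀ (by norm_num))
    (fun i => by
      rcases hδ with h | h
      · simpa [h] using isCoprime_one_right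
      · simp only [h]
        exact (isCoprime_one_right (x := (2 : ℤ) ^ i)).neg_right)
    (by
      intro i j hij
      exact hpw i j (Prod.ext_iff.1 hij).1) ε hε
  refine ⟨c, I, h0, h1 ?_, fun M => ?_⟩
  · intro p hp
    refine ⟨0, fun i hd => ?_⟩
    have h3 : (p : ℤ) ∣ 1 := by
      rcases hδ with h | h
      · simpa [h] using hd
      · simpa [h] using hd
    have h4 := Int.natAbs_dvd_natAbs.2 h3
    simp at h4
    exact hp.one_lt.ne' h4
  · have h3 := h2 ((Finset.range (M + 1)).image (fun j : ℕ => ((2 : ℤ) ^ j, δ))) (by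
      intro f hf
      obtain ⟨j, _, rfl⟩ := Finset.mem_image.1 hf
      exact one_le_pow₀ (by norm_num))
    refine h3.mono ?_
    intro n hn j hj
    have h4 := hn ((2 : ℤ) ^ j, δ)
      (Finset.mem_image.2 ⟨j, Finset.mem_range.2 (by omega), rfl⟩)
    constructor
    · rintro ⟨p, hp, hpe⟩
      have h5 : val ((2 : ℤ) ^ j, δ) n = p := by
        unfold val
        simp only
        omega
      obtain ⟨i, hi, hif⟩ := h4.1 (by rw [h5]; exact hp)
      have := hpw i j (Prod.ext_iff.1 hif).1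
      rwa [← this]
    · intro hjI
      have h5 := h4.2 ⟨j, hjI, rfl⟩
      refine ⟨_, h5, ?_⟩
      have h6 := (hP1 c _ h5).pos
      unfold val at h6 ⊢
      simp only at h6 ⊢
      omega

/-- orbits started at an element of the class -/
theorem orb_start (δ : ℤ) (hδ : δ = 1 ∨ δ = -1) {k : ℕ} (P : Fin k → Set ℕ)
    (hP1 : ∀ i, ∀ p ∈ P i, p.Prime) (hP2 : ∀ p : ℕ, p.Prime → ∃ i, p ∈ P i)
    (ε : ℝ) (hε : 0 < ε) : ∃ c : Fin k, ∃ E : Set ℕ, 0 ∈ E ∧ LogDense (1 - ε) E ∧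
      ∀ M : ℕ, {p : ℕ | p ∈ P c ∧
        ∀ j ≤ M, ((∃ r ∈ P c, (r : ℤ) = 2 ^ j * ((p : ℤ) - δ) + δ) ↔ j ∈ E)}.Infinite := by
  classical
  set e' : ℝ := min ε (1 / 2) with he'
  have he0 : 0 < e' := lt_min hε (by norm_num)
  have he1 : e' ≤ 1 / 2 := min_le_right _ _
  obtain ⟨c, I, hinf, h1, h2⟩ := orb δ hδ P hP1 hP2 e' he0
  obtain ⟨e, heI, hemin⟩ : ∃ e ∈ I, ∀ i ∈ I, e ≤ i := by
    refine ⟨sInf I, Nat.sInf_mem hinf.nonempty, fun i hi => Nat.sInf_le hi⟩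
  refine ⟨c, {j | e + j ∈ I}, by simpa using heI,
    (h1.shift (by linarith) e hemin).mono (by have := min_le_left ε (1 / 2); linarith), ?_⟩
  intro M
  have h3 := h2 (e + M)
  have hinj : Set.InjOn (fun n : ℕ => ((2 : ℤ) ^ e * n + δ).toNat)
      {n : ℕ | ∀ j ≤ e + M, ((∃ p ∈ P c, (p : ℤ) = 2 ^ j * n + δ) ↔ j ∈ I)} := by
    intro m hm n hn hmn
    obtain ⟨p, hp, hpe⟩ := (hm e (by omega)).2 heI
    obtain ⟨p', hp', hpe'⟩ := (hn e (by omega)).2 heI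
    simp only at hmn
    have h6 : (2 : ℤ) ^ e * m = 2 ^ e * n := by omega
    have h7 := mul_left_cancel₀ (by positivity : (2 : ℤ) ^ e ≠ 0) h6
    exact_mod_cast h7
  refine (h3.image hinj).mono ?_
  rintro _ ⟨n, hn, rfl⟩
  obtain ⟨p, hp, hpe⟩ := (hn e (by omega)).2 heI
  have hpn : ((2 : ℤ) ^ e * n + δ).toNat = p := by omega
  refine ⟨by simp only [hpn]; exact hp, fun j hj => ?_⟩
  simp only [hpn]
  have h5 : (2 : ℤ) ^ j * ((p : ℤ) - δ) + δ = 2 ^ (e + j) * n + δ := by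
    rw [hpe, pow_add]
    ring
  rw [h5]
  exact hn (e + j) (by omega)

end Pool.Agent.Q51.CP.Col
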