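import Mathlib

/-! Counting: every `K`-subset contains a good `r`-subset. -/

set_option autoImplicit false

namespace Pool.Agent.Q51.CP

open Finset Filter

/-- double counting -/
theorem count_good {α : Type*} [DecidableEq α] (S : Finset α) (G : Finset α → Prop)
    [DecidablePred G] (r K : ℕ) (hrK : r ≤ K) (hKS : K ≤ S.card)
    (h : ∀ T ⊆ S, T.card = K → ∃ R ⊆ T, R.card = r ∧ G R) :
    S.card.choose r ≤ ((S.powersetCard r).filter G).card * K.choose r := by
  classical
  choose! f hf1 hf2 hf3 using h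
  -- the number of the `K`-subsets
  have h1 : S.card.choose K ≤ ((S.powersetCard r).filter G).card *
      (S.card - r).choose (K - r) := by
    rw [← Finset.card_powersetCard, mul_comm]
    refine Finset.card_le_mul_card_image_of_maps_to (f := f) ?_ _ ?_
    · intro T hT
      rw [Finset.mem_powersetCard] at hT
      rw [Finset.mem_filter, Finset.mem_powersetCard]
      exact ⟨⟨(hf1 T hT.1 hT.2).trans hT.1, hf2 T hT.1 hT.2⟩, hf3 T hT.1 hT.2⟩
    · intro R hR
      rw [Finset.mem_filter, Finset.mem_powersetCard] at hR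
      have h2 : ((S.powersetCard K).filter (fun T => f T = R)).card ≤
          ((S \ R).powersetCard (K - r)).card := by
        refine Finset.card_le_card_of_injOn (fun T => T \ R) ?_ ?_
        · intro T hT
          rw [Finset.mem_coe, Finset.mem_filter, Finset.mem_powersetCard] at hT
          have hRT : R ⊆ T := hT.2 ▸ hf1 T hT.1.1 hT.1.2
          rw [Finset.mem_coe, Finset.mem_powersetCard]
          refine ⟨Finset.sdiff_subset_sdiff hT.1.1 le_rfl, ?_⟩
          rw [Finset.card_sdiff_of_subset hRT, hT.1.2, hR.1.2]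
        · intro T hT T' hT' heq
          rw [Finset.mem_coe, Finset.mem_filter, Finset.mem_powersetCard] at hT hT'
          have hRT : R ⊆ T := hT.2 ▸ hf1 T hT.1.1 hT.1.2
          have hRT' : R ⊆ T' := hT'.2 ▸ hf1 T' hT'.1.1 hT'.1.2
          simp only at heq
          rw [← Finset.sdiff_union_of_subset hRT, heq, Finset.sdiff_union_of_subset hRT']
      rw [Finset.card_powersetCard, Finset.card_sdiff_of_subset hR.1.1, hR.1.2] at h2
      exact h2
  have h2 : S.card.choose K * K.choose r = S.card.choose r * (S.card - r).choose (K - r) :=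
    Nat.choose_mul hrK
  have h3 : 0 < (S.card - r).choose (K - r) := Nat.choose_pos (by omega)
  have h4 : S.card.choose r * (S.card - r).choose (K - r) ≤
      (((S.powersetCard r).filter G).card * K.choose r) * (S.card - r).choose (K - r) := by
    rw [← h2]
    calc S.card.choose K * K.choose r ≤ (((S.powersetCard r).filter G).card *
          (S.card - r).choose (K - r)) * K.choose r := Nat.mul_le_mul_right _ h1
      _ = _ := by ring
  exact Nat.le_of_mul_le_mul_right h4 h3

/-- the choice of the parameters -/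
theorem params (c : ℝ) (hc : c < 1 / 16) : ∃ L₀ : ℕ, ∀ L : ℕ, L₀ ≤ L → ∃ r K : ℕ, 3 ≤ r ∧
    Real.exp (4 * ((r - 1 : ℕ) : ℝ) + 29 / 50) ≤ K ∧ r ≤ K ∧ K ≤ L ∧
    Real.exp (c * Real.log L ^ 2) * (K.choose r : ℝ) ≤ (L.choose r : ℝ) := by
  have h1 : Tendsto (fun L : ℕ => Real.log L) atTop atTop :=
    Real.tendsto_log_atTop.comp tendsto_natCast_atTop_atTop
  obtain ⟨L₀, hL₀⟩ := eventually_atTop.1 ((h1.eventually_ge_atTop (40 + 1 / (1 / 16 - c))).and
    (eventually_ge_atTop 2))
  refine ⟨L₀, fun L hL => ?_⟩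
  obtain ⟨hl, hL2⟩ := hL₀ L hL
  set ℓ := Real.log L with hℓ
  have hc' : 0 < 1 / 16 - c := by linarith
  have hcinv : 0 < 1 / (1 / 16 - c) := by positivity
  have hl40 : 40 ≤ ℓ := by linarith
  have hL0 : (0 : ℝ) < L := by
    have : (2 : ℝ) ≤ L := by exact_mod_cast hL2
    linarith
  set r := ⌊ℓ / 8⌋₊ with hr
  have hr1 : (r : ℝ) ≤ ℓ / 8 := Nat.floor_le (by linarith)
  have hr2 : ℓ / 8 - 1 < r := by
    have := Nat.lt_floor_add_one (ℓ / 8)
    linarith
  have hr3 : 3 ≤ r := by
    apply Nat.le_floor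
    push_cast
    linarith
  set K := ⌊Real.exp (4 * r)⌋₊ with hK
  have hK1 : (K : ℝ) ≤ Real.exp (4 * r) := Nat.floor_le (Real.exp_pos _).le
  have hK2 : Real.exp (4 * r) - 1 < K := by
    have := Nat.lt_floor_add_one (Real.exp (4 * (r : ℝ)))
    linarith
  have hLe : (L : ℝ) = Real.exp ℓ := (Real.exp_log hL0).symm
  have hKL : (K : ℝ) ≤ Real.exp (ℓ / 2) := hK1.trans (Real.exp_le_exp.2 (by linarith))
  have hr1' : (1 : ℕ) ≤ r := by omega
  refine ⟨r, K, hr3, ?_, ?_, ?_, ?_⟩
  · have h2 : 4 * ((r - 1 : ℕ) : ℝ) + 29 / 50 = 4 * r - 171 / 50 := by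
      rw [Nat.cast_sub hr1']
      push_cast
      ring
    rw [h2, Real.exp_sub]
    have h3 : (2 : ℝ) ≤ Real.exp (171 / 50) := by
      have := Real.add_one_le_exp (171 / 50 : ℝ)
      linarith
    have h4 : Real.exp (4 * r) / Real.exp (171 / 50) ≤ Real.exp (4 * r) / 2 := by
      gcongr
    have h5 : (2 : ℝ) ≤ Real.exp (4 * r) := by
      have := Real.add_one_le_exp (4 * (r : ℝ))
      have h6 : (3 : ℝ) ≤ r := by exact_mod_cast hr3
      linarith
    linarith
  · have h6 : (r : ℝ) ≤ K := by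
      have := Real.add_one_le_exp (4 * (r : ℝ))
      have h7 : (0 : ℝ) ≤ r := Nat.cast_nonneg r
      linarith
    exact_mod_cast h6
  · have h6 : (K : ℝ) ≤ L := by
      rw [hLe]
      exact hKL.trans (Real.exp_le_exp.2 (by linarith))
    exact_mod_cast h6
  · have hfac : (0 : ℝ) < (r.factorial : ℝ) := by exact_mod_cast Nat.factorial_pos r
    have h2 : ((L + 1 - r : ℕ) : ℝ) ^ r ≤ (r.factorial : ℝ) * (L.choose r : ℝ) := by
      have := Nat.pow_le_choose r L (α := ℝ)
      rw [div_le_iff₀ hfac] at this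
      linarith
    have h3 : (K.choose r : ℝ) ≤ (K : ℝ) ^ r / (r.factorial : ℝ) := Nat.choose_le_pow_div r K
    have h4 : (L : ℝ) / 2 ≤ ((L + 1 - r : ℕ) : ℝ) := by
      have h5 : (r : ℝ) ≤ L / 2 := by
        have h6 : ℓ + 1 ≤ Real.exp ℓ := Real.add_one_le_exp ℓ
        rw [← hLe] at h6
        linarith
      have h7 : r ≤ L + 1 := by
        have : (r : ℝ) ≤ (L : ℝ) + 1 := by linarith
        exact_mod_cast this
      rw [Nat.cast_sub h7]
      push_cast
      linarith
    have h5 : Real.exp (c * ℓ ^ 2) * (K : ℝ) ^ r ≤ ((L : ℝ) / 2) ^ r := by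
      have hlog2 : Real.log 2 ≤ 1 := by
        have := Real.log_two_lt_d9
        linarith
      have h6 : (L : ℝ) / 2 = Real.exp (ℓ - Real.log 2) := by
        rw [Real.exp_sub, ← hLe, Real.exp_log (by norm_num)]
      rw [h6, ← Real.exp_nat_mul]
      calc Real.exp (c * ℓ ^ 2) * (K : ℝ) ^ r ≤ Real.exp (c * ℓ ^ 2) * Real.exp (4 * r) ^ r := by
            gcongr
        _ = Real.exp (c * ℓ ^ 2 + r * (4 * r)) := by rw [← Real.exp_nat_mul, ← Real.exp_add]
        _ ≤ Real.exp (r * (ℓ - Real.log 2)) := by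
            rw [Real.exp_le_exp]
            have h7 : c * ℓ ^ 2 ≤ (ℓ / 8 - 1) * (ℓ / 2 - 1) := by
              have h8 : ℓ ≤ (1 / 16 - c) * ℓ ^ 2 := by
                have h9 : 1 ≤ (1 / 16 - c) * ℓ := by
                  have h10 : 1 / (1 / 16 - c) ≤ ℓ := by linarith
                  rw [div_le_iff₀ hc'] at h10
                  linarith
                nlinarith
              nlinarith
            have h8 : (ℓ / 8 - 1) * (ℓ / 2 - 1) ≤ r * (ℓ - Real.log 2 - 4 * r) := by
              have h9 : ℓ / 2 - 1 ≤ ℓ - Real.log 2 - 4 * r := by linarith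
              have h10 : (0 : ℝ) ≤ r := Nat.cast_nonneg r
              calc (ℓ / 8 - 1) * (ℓ / 2 - 1) ≤ r * (ℓ / 2 - 1) := by
                    apply mul_le_mul_of_nonneg_right hr2.le
                    linarith
                _ ≤ r * (ℓ - Real.log 2 - 4 * r) := by gcongr
            nlinarith
    calc Real.exp (c * ℓ ^ 2) * (K.choose r : ℝ) ≤
          Real.exp (c * ℓ ^ 2) * ((K : ℝ) ^ r / (r.factorial : ℝ)) := by gcongr
      _ = (Real.exp (c * ℓ ^ 2) * (K : ℝ) ^ r) / (r.factorial : ℝ) := by ring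
      _ ≤ ((L : ℝ) / 2) ^ r / (r.factorial : ℝ) := by gcongr
      _ ≤ ((L + 1 - r : ℕ) : ℝ) ^ r / (r.factorial : ℝ) := by gcongr
      _ ≤ (L.choose r : ℝ) := by
          rw [div_le_iff₀ hfac]
          linarith

end Pool.Agent.Q51.CP
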